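import Pool.Agent.Lib.MP_1a91b9_ntQ.D.Lim2

/-!
# MP_1a91b9_nt (K = ℚ(√-7)), part D: from the moments to the density

The moments are the numbers of the subspaces of `F2^k`; the limit density is `∏ (1 - 2^{-i})`.
-/

set_option autoImplicit false

namespace Pool.Agent.Lib.MP_1a91b9_ntV.DS

open Finset Filter Topology Pool.Agent.Lib.MP_1a91b9_ntQ.Da

noncomputable section

/-- The mean value of `x ^ m * ∏ (i < j) (x - 2 ^ i)`; `gN m 0` is the number of the subspaces of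
`F2^m`. -/
def gN : ℕ → ℕ → ℕ
  | 0, _ => 1
  | m + 1, j => gN m (j + 1) + 2 ^ j * gN m j

theorem gN_zero (j : ℕ) : gN 0 j = 1 := rfl

theorem gN_succ (m j : ℕ) : gN (m + 1) j = gN m (j + 1) + 2 ^ j * gN m j := rfl

/-- The partial sums `∑ (j ≤ K) (-1)^j / ∏ (i ≤ j) (2^i - 1)`. -/
def sV (K : ℕ) : ℝ := ∑ j ∈ range (K + 1), (-1) ^ j / ∏ i ∈ range j, (2 ^ (i + 1) - 1)

variable {β : Type}

theorem MFV_Fj {A : ℕ → Finset β} {kc : β → ℕ} (hm : ∀ k, MF2 A kc (fun x => x ^ k) (gN k 0))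
    (j : ℕ) : ∀ m : ℕ, MF2 A kc (fun x => x ^ m * Fj2 j x) (gN m j) := by
  induction j with
  | zero =>
    intro m
    refine (hm m).congr (fun x => ?_) rfl
    simp [Fj2]
  | succ j ih =>
    intro m
    refine ((ih (m + 1)).add ((ih m).smul (-(2 ^ j)))).congr (fun x => ?_) ?_
    · rw [Fj2, prod_range_succ, ← Fj2]
      ring
    · rw [gN_succ]
      push_cast
      ring

theorem MFV_pK {A : ℕ → Finset β} {kc : β → ℕ} (hm : ∀ k, MF2 A kc (fun x => x ^ k) (gN k 0))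
    (K : ℕ) : MF2 A kc (pK2 K) (sV K) := by
  induction K with
  | zero =>
    refine (hm 0).congr (fun x => ?_) ?_
    · simp [pK2]
    · simp [sV, gN_zero]
  | succ K ih =>
    refine (ih.add ((MFV_Fj hm (K + 1) 0).smul
      ((-1) ^ (K + 1) / ∏ i ∈ range (K + 1), (2 ^ (i + 1) - 1)))).congr
      (fun x => pK2_succ K x) ?_
    rw [sV, sum_range_succ, ← sV]
    simp [gN_zero]

/-- The lower bound for the number of `b` with trivial kernel from the moments, `K` odd. -/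
theorem densV_odd {A : ℕ → Finset β} {kc : β → ℕ} (hp : ∀ b, ∃ r, kc b = 2 ^ r)
    (hm : ∀ k, MF2 A kc (fun x => x ^ k) (gN k 0)) (K : ℕ) (hK : Odd K)
    (ε : ℝ) (hε : 0 < ε) : ∃ X₀ : ℕ, ∀ X : ℕ, X₀ ≤ X →
      sV K * (A X).card - ε * X ≤ ((A X).filter fun b => kc b = 1).card := by
  obtain ⟨X1, h1⟩ := MFV_pK hm K ε hε
  refine ⟨X1, fun X hX => ?_⟩
  have h2 := h1 X hX
  have h3 : ∑ b ∈ A X, pK2 K (kc b) ≤ ((A X).filter fun b => kc b = 1).card := by
    rw [card_eq_sum_ones, sum_filter]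
    push_cast
    refine sum_le_sum fun b _ => ?_
    split_ifs with hd
    · rw [hd]
      push_cast
      rw [pK2_one]
    · obtain ⟨r, hr⟩ := hp b
      have hr0 : r ≠ 0 := by
        intro h0
        rw [h0, pow_zero] at hr
        exact hd hr
      rw [hr]
      push_cast
      exact (pK2_pow K r hr0).1 hK
  have h4 := (abs_le.1 h2).1
  linarith

/-- The upper bound, `K` even. -/
theorem densV_even {A : ℕ → Finset β} {kc : β → ℕ} (hp : ∀ b, ∃ r, kc b = 2 ^ r)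
    (hm : ∀ k, MF2 A kc (fun x => x ^ k) (gN k 0)) (K : ℕ) (hK : Even K)
    (ε : ℝ) (hε : 0 < ε) : ∃ X₀ : ℕ, ∀ X : ℕ, X₀ ≤ X →
      (((A X).filter fun b => kc b = 1).card : ℝ) ≤ sV K * (A X).card + ε * X := by
  obtain ⟨X1, h1⟩ := MFV_pK hm K ε hε
  refine ⟨X1, fun X hX => ?_⟩
  have h2 := h1 X hX
  have h3 : (((A X).filter fun b => kc b = 1).card : ℝ) ≤ ∑ b ∈ A X, pK2 K (kc b) := by
    rw [card_eq_sum_ones, sum_filter]
    push_cast
    refine sum_le_sum fun b _ => ?_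
    split_ifs with hd
    · rw [hd]
      push_cast
      rw [pK2_one]
    · obtain ⟨r, hr⟩ := hp b
      have hr0 : r ≠ 0 := by
        intro h0
        rw [h0, pow_zero] at hr
        exact hd hr
      rw [hr]
      push_cast
      exact (pK2_pow K r hr0).2 hK
  have h4 := (abs_le.1 h2).2
  linarith

/-! ### The limit of the partial sums -/

/-- The limit density `∏ (i ≥ 1) (1 - 2^{-i}) = 0.2887...`. -/
def cinfV : ℝ := ∏' i : ℕ, (1 - (1 / 2 : ℝ) ^ (i + 1))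

/-- The coefficients of Euler's product. -/
def bcV (j : ℕ) : ℝ := (-1) ^ j * (∏ i ∈ range j, (1 / 2 : ℝ) ^ i) * ac2 j

theorem bcV_zero : bcV 0 = 1 := by simp [bcV, ac2]

theorem bcV_succ (j : ℕ) : bcV (j + 1) * (1 - (1 / 2 : ℝ) ^ (j + 1)) = -((1 / 2) ^ j) * bcV j := by
  have h := ac2_succ j
  rw [bcV, bcV, prod_range_succ, pow_succ]
  linear_combination (-(-1 : ℝ) ^ j * (∏ i ∈ range j, (1 / 2 : ℝ) ^ i) * (1 / 2) ^ j) * h

theorem abs_bcV (j : ℕ) : |bcV j| ≤ 4 := by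
  have h1 : (0 : ℝ) ≤ ∏ i ∈ range j, (1 / 2 : ℝ) ^ i := prod_nonneg fun i _ => by positivity
  have h2 : ∏ i ∈ range j, (1 / 2 : ℝ) ^ i ≤ 1 :=
    prod_le_one (fun i _ => by positivity) fun i _ => pow_le_one₀ (by norm_num) (by norm_num)
  rw [bcV, abs_mul, abs_mul, abs_pow, abs_neg, abs_one, one_pow, one_mul, abs_of_nonneg h1,
    abs_of_pos (ac2_pos j)]
  calc (∏ i ∈ range j, (1 / 2 : ℝ) ^ i) * ac2 j ≤ 1 * 4 :=
        mul_le_mul h2 (ac2_le j) (ac2_pos j).le zero_le_one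
    _ = 4 := one_mul 4

/-- Euler's series. -/
def gsV (z : ℝ) : ℝ := ∑' j, bcV j * z ^ j

theorem summable_gsV {z : ℝ} (hz : |z| < 1) : Summable fun j => bcV j * z ^ j := by
  refine Summable.of_norm_bounded (g := fun j => 4 * |z| ^ j)
    ((summable_geometric_of_lt_one (abs_nonneg z) hz).mul_left _) fun j => ?_
  rw [norm_mul, norm_pow, Real.norm_eq_abs, Real.norm_eq_abs]
  exact mul_le_mul_of_nonneg_right (abs_bcV j) (by positivity)

theorem gsV_eq {z : ℝ} (hz : |z| < 1) : gsV z = (1 - z) * gsV (z * (1 / 2)) := by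
  have hz4 : |z * (1 / 2)| < 1 := by
    rw [abs_mul, abs_of_pos (by norm_num : (0 : ℝ) < 1 / 2)]
    linarith [abs_nonneg z]
  have h1 := summable_gsV hz
  have h2 := summable_gsV hz4
  have h3 : gsV z - gsV (z * (1 / 2)) = -z * gsV (z * (1 / 2)) := by
    rw [gsV, gsV, ← h1.tsum_sub h2, ← tsum_mul_left, (h1.sub h2).tsum_eq_zero_add]
    simp only [pow_zero, mul_one, sub_self, zero_add]
    refine tsum_congr fun j => ?_
    have h4 := bcV_succ j
    rw [mul_pow, mul_pow]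
    linear_combination z ^ (j + 1) * h4
  linarith

theorem gsV_iter (n : ℕ) : (∏ i ∈ range n, (1 - (1 / 2 : ℝ) ^ (i + 1))) *
    gsV ((1 / 2) ^ (n + 1)) = gsV (1 / 2) := by
  induction n with
  | zero => simp
  | succ n ih =>
    have hz : |(1 / 2 : ℝ) ^ (n + 1)| < 1 := by
      rw [abs_of_pos (by positivity)]
      exact pow_lt_one₀ (by norm_num) (by norm_num) (by omega)
    have h1 := gsV_eq hz
    rw [← ih, h1, prod_range_succ, pow_succ (1 / 2 : ℝ) (n + 1)]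
    ring

theorem gsV_near {z : ℝ} (hz : |z| ≤ 1 / 2) : |gsV z - 1| ≤ 8 * |z| := by
  have hz1 : |z| < 1 := by linarith
  have h1 := summable_gsV hz1
  have h2 : gsV z - 1 = ∑' j, bcV (j + 1) * z ^ (j + 1) := by
    rw [gsV, h1.tsum_eq_zero_add, bcV_zero]
    simp
  rw [h2, ← Real.norm_eq_abs]
  have h3 : HasSum (fun j => 4 * |z| * |z| ^ j) (4 * |z| * (1 - |z|)⁻¹) :=
    (hasSum_geometric_of_lt_one (abs_nonneg z) hz1).mul_left _
  refine (tsum_of_norm_bounded h3 fun j => ?_).trans ?_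
  · rw [norm_mul, norm_pow, Real.norm_eq_abs, Real.norm_eq_abs, pow_succ]
    calc |bcV (j + 1)| * (|z| ^ j * |z|) ≤ 4 * (|z| ^ j * |z|) :=
          mul_le_mul_of_nonneg_right (abs_bcV _) (by positivity)
      _ = 4 * |z| * |z| ^ j := by ring
  · have h4 : (1 - |z|)⁻¹ ≤ 2 := by
      rw [inv_le_comm₀ (by linarith) (by norm_num)]
      linarith
    nlinarith [abs_nonneg z]

theorem tendsto_gsV : Tendsto (fun n : ℕ => gsV ((1 / 2) ^ (n + 1))) atTop (𝓝 1) := by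
  rw [tendsto_iff_dist_tendsto_zero]
  have h0 : Tendsto (fun n : ℕ => 8 * (1 / 2 : ℝ) ^ (n + 1)) atTop (𝓝 0) := by
    have := ((tendsto_add_atTop_iff_nat 1).2 (tendsto_pow_atTop_nhds_zero_of_lt_one
      (r := (1 / 2 : ℝ)) (by norm_num) (by norm_num))).const_mul 8
    rwa [mul_zero] at this
  refine squeeze_zero (fun _ => dist_nonneg) (fun n => ?_) h0
  have hp : (0 : ℝ) < (1 / 2) ^ (n + 1) := by positivity
  rw [Real.dist_eq]
  refine (gsV_near ?_).trans ?_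
  · rw [abs_of_pos hp, pow_succ]
    have : (1 / 2 : ℝ) ^ n ≤ 1 := pow_le_one₀ (by norm_num) (by norm_num)
    linarith
  · rw [abs_of_pos hp]

theorem cinfV_eq : cinfV = gsV (1 / 2) := by
  have hs : Summable fun i : ℕ => (1 / 2 : ℝ) ^ (i + 1) := by
    have h1 : Summable fun i : ℕ => (1 / 2 : ℝ) * (1 / 2) ^ i :=
      (summable_geometric_of_lt_one (by norm_num) (by norm_num)).mul_left _
    exact h1.congr fun i => (pow_succ' _ _).symm
  have hsB : Multipliable fun i : ℕ => (1 - (1 / 2 : ℝ) ^ (i + 1)) := by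
    have := Real.multipliable_one_add_of_summable (f := fun i : ℕ => -(1 / 2 : ℝ) ^ (i + 1)) hs.neg
    exact this.congr fun i => (sub_eq_add_neg _ _).symm
  have hB := hsB.hasProd.tendsto_prod_nat
  have h1 := hB.mul tendsto_gsV
  rw [mul_one] at h1
  simp only [gsV_iter] at h1
  exact tendsto_nhds_unique h1 tendsto_const_nhds

theorem sV_term (j : ℕ) : (-1 : ℝ) ^ j / ∏ i ∈ range j, (2 ^ (i + 1) - 1) =
    bcV j * (1 / 2) ^ j := by
  have h1 : ∀ i : ℕ, (2 : ℝ) ^ (i + 1) - 1 = 2 ^ i * 2 * (1 - (1 / 2) ^ (i + 1)) := by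
    intro i
    have h2 : (2 : ℝ) ^ (i + 1) * (1 / 2) ^ (i + 1) = 1 := by
      rw [← mul_pow]
      norm_num
    rw [← pow_succ]
    linear_combination h2
  have h3 : ∏ i ∈ range j, ((2 : ℝ) ^ (i + 1) - 1) = (∏ i ∈ range j, (2 : ℝ) ^ i) * 2 ^ j *
      ∏ i ∈ range j, (1 - (1 / 2 : ℝ) ^ (i + 1)) := by
    rw [prod_congr rfl fun i _ => h1 i, prod_mul_distrib, prod_mul_distrib, prod_const, card_range]
  have h4 : (∏ i ∈ range j, (2 : ℝ) ^ i) * ∏ i ∈ range j, (1 / 2 : ℝ) ^ i = 1 := by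
    rw [← prod_mul_distrib]
    refine prod_eq_one fun i _ => ?_
    rw [← mul_pow]
    norm_num
  have h5 : (2 : ℝ) ^ j * (1 / 2) ^ j = 1 := by
    rw [← mul_pow]
    norm_num
  have h6 : (∏ i ∈ range j, (1 - (1 / 2 : ℝ) ^ (i + 1))) ≠ 0 :=
    (prod_pos fun i _ => one_sub_pos2 i).ne'
  have h7 : (∏ i ∈ range j, (2 : ℝ) ^ i) ≠ 0 := (prod_pos fun i _ => by positivity).ne'
  have h8 : (2 : ℝ) ^ j ≠ 0 := by positivity
  rw [h3, bcV, ac2, div_eq_iff (mul_ne_zero (mul_ne_zero h7 h8) h6)]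
  have h9 : (∏ i ∈ range j, (1 - (1 / 2 : ℝ) ^ (i + 1)))⁻¹ *
      (∏ i ∈ range j, (1 - (1 / 2 : ℝ) ^ (i + 1))) = 1 := inv_mul_cancel₀ h6
  calc (-1 : ℝ) ^ j = (-1) ^ j * ((∏ i ∈ range j, (2 : ℝ) ^ i) * ∏ i ∈ range j, (1 / 2 : ℝ) ^ i) *
        (2 ^ j * (1 / 2) ^ j) * ((∏ i ∈ range j, (1 - (1 / 2 : ℝ) ^ (i + 1)))⁻¹ *
          (∏ i ∈ range j, (1 - (1 / 2 : ℝ) ^ (i + 1)))) := by rw [h4, h5, h9]; ring
    _ = _ := by ring

/-- The partial sums converge to the infinite product. -/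
theorem tendsto_sV : Tendsto sV atTop (𝓝 cinfV) := by
  have hz : |(1 / 2 : ℝ)| < 1 := by rw [abs_of_pos (by norm_num)]; norm_num
  have h1 := (summable_gsV hz).hasSum.tendsto_sum_nat
  have h2 : sV = fun K => ∑ j ∈ range (K + 1), bcV j * (1 / 2 : ℝ) ^ j := by
    funext K
    exact sum_congr rfl fun j _ => sV_term j
  rw [h2, cinfV_eq]
  exact (tendsto_add_atTop_iff_nat 1).2 h1

theorem exists_oddV {κ : ℝ} (hκ : κ < cinfV) : ∃ K, Odd K ∧ κ < sV K := by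
  have h1 := tendsto_sV.eventually (lt_mem_nhds hκ)
  obtain ⟨N, hN⟩ := Filter.eventually_atTop.1 h1
  exact ⟨2 * N + 1, ⟨N, rfl⟩, hN _ (by omega)⟩

theorem exists_evenV {κ : ℝ} (hκ : cinfV < κ) : ∃ K, Even K ∧ sV K < κ := by
  have h1 := tendsto_sV.eventually (gt_mem_nhds hκ)
  obtain ⟨N, hN⟩ := Filter.eventually_atTop.1 h1
  exact ⟨2 * N, ⟨N, by ring⟩, hN _ (by omega)⟩

/-- The lower density of the `b` with trivial kernel is at least the infinite product. -/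
theorem densV_lower {A : ℕ → Finset β} {kc : β → ℕ} (hp : ∀ b, ∃ r, kc b = 2 ^ r)
    (hm : ∀ k, MF2 A kc (fun x => x ^ k) (gN k 0)) {κ : ℝ} (hκ : κ < cinfV)
    (ε : ℝ) (hε : 0 < ε) : ∃ X₀ : ℕ, ∀ X : ℕ, X₀ ≤ X →
      κ * (A X).card - ε * X ≤ ((A X).filter fun b => kc b = 1).card := by
  obtain ⟨K, hK, h1⟩ := exists_oddV hκ
  obtain ⟨X0, h0⟩ := densV_odd hp hm K hK ε hε
  refine ⟨X0, fun X hX => ?_⟩
  have h2 := h0 X hX
  have h3 := mul_le_mul_of_nonneg_right h1.le (Nat.cast_nonneg (α := ℝ) (A X).card)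
  linarith

/-- The upper density of the `b` with trivial kernel is at most the infinite product. -/
theorem densV_upper {A : ℕ → Finset β} {kc : β → ℕ} (hp : ∀ b, ∃ r, kc b = 2 ^ r)
    (hm : ∀ k, MF2 A kc (fun x => x ^ k) (gN k 0)) {κ : ℝ} (hκ : cinfV < κ)
    (ε : ℝ) (hε : 0 < ε) : ∃ X₀ : ℕ, ∀ X : ℕ, X₀ ≤ X →
      (((A X).filter fun b => kc b = 1).card : ℝ) ≤ κ * (A X).card + ε * X := by
  obtain ⟨K, hK, h1⟩ := exists_evenV hκ
  obtain ⟨X0, h0⟩ := densV_even hp hm K hK ε hε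
  refine ⟨X0, fun X hX => ?_⟩
  have h2 := h0 X hX
  have h3 := mul_le_mul_of_nonneg_right h1.le (Nat.cast_nonneg (α := ℝ) (A X).card)
  linarith

end

end Pool.Agent.Lib.MP_1a91b9_ntV.DS
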