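import Pool.Agent.Lib.MP_1a91b9_ntV.DS.Sub
import Mathlib.LinearAlgebra.Basis.Prod

/-!
# MP_1a91b9_nt (K = ℚ(√-7)), part D: the sum over the borders for a fixed subspace
-/

set_option autoImplicit false

namespace Pool.Agent.Lib.MP_1a91b9_ntV.DS

open Finset Pool.Agent.Lib.MP_1a91b9_ntQ Pool.Agent.Lib.MP_1a91b9_ntQ.Da
  Pool.Agent.Lib.MP_1a91b9_ntH

noncomputable section

variable {k : ℕ}

/-- The orthogonal subspace. -/
def pp (X : Sb k) : Sb k where
  carrier := {y | ∀ x ∈ X, y ⬝ᵥ x = 0}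
  add_mem' := by
    intro a b ha hb x hx
    rw [add_dotProduct, ha x hx, hb x hx, add_zero]
  zero_mem' := fun x _ => zero_dotProduct x
  smul_mem' := by
    intro c a ha x hx
    rw [smul_dotProduct, ha x hx, smul_zero]

theorem mem_pp {X : Sb k} {y : V2 k} : y ∈ pp X ↔ ∀ x ∈ X, y ⬝ᵥ x = 0 := Iff.rfl

/-- Coordinates adapted to `X`. -/
theorem adapted (X : Sb k) : ∃ (m n : ℕ) (P Q : V2 k ≃ (Fin m ⊕ Fin n → ZMod 2)),
    m + n = k ∧ (∀ x y, P (x + y) = P x + P y) ∧ (∀ (c : ZMod 2) x, P (c • x) = c • P x) ∧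
      (∀ x y, Q (x + y) = Q x + Q y) ∧ (∀ (c : ZMod 2) x, Q (c • x) = c • Q x) ∧
      (∀ x y, y ⬝ᵥ x = ∑ s, Q y s * P x s) ∧ (∀ x, x ∈ X ↔ ∀ i, P x (Sum.inr i) = 0) ∧
      (∀ y, y ∈ pp X ↔ ∀ i, Q y (Sum.inl i) = 0) := by
  obtain ⟨X', hX⟩ := Submodule.exists_isCompl X
  let bX := Module.finBasis (ZMod 2) X
  let bX' := Module.finBasis (ZMod 2) X'
  let b := (bX.prod bX').map (Submodule.prodEquivOfIsCompl X X' hX)
  have hb1 : ∀ i, b (Sum.inl i) = (bX i : V2 k) := by
    intro i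
    simp [b]
  have hmem : ∀ x : V2 k, x ∈ X ↔ ∀ i, b.equivFun x (Sum.inr i) = 0 := by
    intro x
    constructor
    · intro hx i
      have h1 : (Submodule.prodEquivOfIsCompl X X' hX).symm x = (⟨x, hx⟩, 0) := by
        rw [LinearEquiv.symm_apply_eq]
        simp
      show b.repr x (Sum.inr i) = 0
      simp only [b, Module.Basis.map_repr, LinearEquiv.trans_apply, h1]
      simp
    · intro h
      have h1 := b.sum_equivFun x
      rw [← h1, Fintype.sum_sum_type]
      refine X.add_mem (X.sum_mem fun i _ => ?_) (X.sum_mem fun i _ => ?_)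
      · rw [hb1]
        exact X.smul_mem _ (bX i).2
      · rw [h i, zero_smul]
        exact X.zero_mem
  have hdot : ∀ x y : V2 k, y ⬝ᵥ x = ∑ s, (y ⬝ᵥ b s) * b.equivFun x s := by
    intro x y
    conv_lhs => rw [← b.sum_equivFun x]
    rw [dotProduct_sum]
    refine sum_congr rfl fun s _ => ?_
    rw [dotProduct_smul, smul_eq_mul, mul_comm]
  have hcard : Module.finrank (ZMod 2) X + Module.finrank (ZMod 2) X' = k := by
    have h1 := Submodule.finrank_add_eq_of_isCompl hX
    rw [h1, Module.finrank_fin_fun]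
  have hinj : Function.Injective fun (y : V2 k)
      (s : Fin (Module.finrank (ZMod 2) X) ⊕ Fin (Module.finrank (ZMod 2) X')) => y ⬝ᵥ b s := by
    intro y y' h
    have h1 : ∀ x : V2 k, (y + y') ⬝ᵥ x = 0 := by
      intro x
      rw [hdot]
      refine sum_eq_zero fun s _ => ?_
      have h2 : y ⬝ᵥ b s = y' ⬝ᵥ b s := congrFun h s
      rw [add_dotProduct, h2, z2_add_self, zero_mul]
    have h3 : y + y' = 0 := by
      by_contra hne
      obtain ⟨z, hz⟩ := exists_dot2 hne
      exact hz (h1 z)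
    funext i
    have h4 := congrFun h3 i
    rw [Pi.add_apply, Pi.zero_apply] at h4
    rw [eq_neg_of_add_eq_zero_left h4, z2_neg]
  have hbij : Function.Bijective fun (y : V2 k)
      (s : Fin (Module.finrank (ZMod 2) X) ⊕ Fin (Module.finrank (ZMod 2) X')) => y ⬝ᵥ b s := by
    rw [Fintype.bijective_iff_injective_and_card]
    refine ⟨hinj, ?_⟩
    rw [Fintype.card_fun, Fintype.card_fun, Fintype.card_sum, Fintype.card_fin, Fintype.card_fin,
      Fintype.card_fin, hcard]
  refine ⟨_, _, b.equivFun.toEquiv, Equiv.ofBijective _ hbij, hcard,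
    fun x y => map_add b.equivFun x y, fun c x => map_smul b.equivFun c x,
    fun x y => funext fun s => by
      show (x + y) ⬝ᵥ b s = x ⬝ᵥ b s + y ⬝ᵥ b s
      exact add_dotProduct _ _ _,
    fun c x => funext fun s => by
      show (c • x) ⬝ᵥ b s = c • (x ⬝ᵥ b s)
      exact smul_dotProduct _ _ _, hdot, hmem, fun y => ?_⟩
  constructor
  · intro h i
    show y ⬝ᵥ b (Sum.inl i) = 0
    rw [hb1]
    exact h _ (bX i).2
  · intro h x hx
    rw [hdot, Fintype.sum_sum_type]
    have h1 : ∀ i, b.equivFun x (Sum.inr i) = 0 := (hmem x).1 hx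
    rw [sum_eq_zero fun i _ => by rw [show y ⬝ᵥ b (Sum.inl i) = 0 from h i, zero_mul],
      sum_eq_zero fun i _ => by rw [h1, mul_zero], add_zero]

theorem pp_pp (X : Sb k) : pp (pp X) = X := by
  obtain ⟨m, n, P, Q, _, _, _, _, _, hdot, hX, hpp⟩ := adapted X
  ext x
  constructor
  · intro h
    rw [hX]
    intro i
    have h1 : Q.symm (Pi.single (Sum.inr i) 1) ∈ pp X := by
      rw [hpp]
      intro j
      rw [Equiv.apply_symm_apply, Pi.single_eq_of_ne (by simp)]
    have h2 := h _ h1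
    rw [dotProduct_comm, hdot, Equiv.apply_symm_apply] at h2
    simpa [Pi.single_apply] using h2
  · intro h y hy
    rw [dotProduct_comm]
    exact hy x h

section ZX

variable {Ac Ar κ : Type} [Fintype Ac] [DecidableEq Ac] [Fintype Ar] [DecidableEq Ar] [Fintype κ]

/-- The exponent of the borders. -/
def ex3 (MM : Ar → Ac → ZMod 2) (x : Ac → V2 k) (y : Ar → V2 k) : ZMod 2 :=
  ∑ b, ∑ a, MM b a * (y b ⬝ᵥ x a)

/-- The same with scalars. -/
def ex1' (MM : Ar → Ac → ZMod 2) (x : Ac → ZMod 2) (y : Ar → ZMod 2) : ZMod 2 :=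
  ∑ b, ∑ a, MM b a * (y b * x a)

open Classical in
/-- The sum over the borders. -/
def ZX (Lc : κ → Ac → ZMod 2) (Lr : κ → Ar → ZMod 2) (MM : Ar → Ac → ZMod 2) (X : Sb k) : ℝ :=
  ∑ x : Ac → V2 k, ∑ y : Ar → V2 k,
    if (∀ j, ∑ a, Lc j a • x a ∈ X) ∧ (∀ j, ∑ b, Lr j b • y b ∈ pp X) then sg (ex3 MM x y) else 0

open Classical in
/-- The local factor at a coordinate of `X`. -/
def fr (Lr : κ → Ar → ZMod 2) (MM : Ar → Ac → ZMod 2) : ℝ :=
  ∑ x : Ac → ZMod 2, ∑ y : Ar → ZMod 2, if ∀ j, ∑ b, Lr j b * y b = 0 then sg (ex1' MM x y) else 0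

open Classical in
/-- The local factor at the other coordinates. -/
def fc (Lc : κ → Ac → ZMod 2) (MM : Ar → Ac → ZMod 2) : ℝ :=
  ∑ x : Ac → ZMod 2, ∑ y : Ar → ZMod 2, if ∀ j, ∑ a, Lc j a * x a = 0 then sg (ex1' MM x y) else 0

open Classical in
theorem ZX_eq (Lc : κ → Ac → ZMod 2) (Lr : κ → Ar → ZMod 2) (MM : Ar → Ac → ZMod 2) {T0 : ℝ}
    (hr : fr Lr MM = T0) (hc : fc Lc MM = T0) (X : Sb k) : ZX Lc Lr MM X = T0 ^ k := by
  obtain ⟨m, n, P, Q, hk, hP1, hP2, hQ1, hQ2, hdot, hX, hpp⟩ := adapted X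
  let g : Fin m ⊕ Fin n → (Ac → ZMod 2) × (Ar → ZMod 2) → ℝ := fun s p =>
    Sum.elim (fun _ => if ∀ j, ∑ b, Lr j b * p.2 b = 0 then sg (ex1' MM p.1 p.2) else 0)
      (fun _ => if ∀ j, ∑ a, Lc j a * p.1 a = 0 then sg (ex1' MM p.1 p.2) else 0) s
  have hg : ∀ s, ∑ p, g s p = T0 := by
    intro s
    rw [Fintype.sum_prod_type]
    rcases s with s | s
    · exact hr
    · exact hc
  have hprod : ∏ s, ∑ p, g s p = T0 ^ k := by
    rw [prod_congr rfl fun s _ => hg s, prod_const, card_univ, Fintype.card_sum, Fintype.card_fin,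
      Fintype.card_fin, hk]
  -- the bijections
  let σ : (Ac → V2 k) × (Ar → V2 k) ≃ (Fin m ⊕ Fin n → (Ac → ZMod 2) × (Ar → ZMod 2)) :=
    { toFun := fun p s => (fun a => P (p.1 a) s, fun b => Q (p.2 b) s)
      invFun := fun q => (fun a => P.symm fun s => (q s).1 a, fun b => Q.symm fun s => (q s).2 b)
      left_inv := fun p => by
        refine Prod.ext (funext fun a => ?_) (funext fun b => ?_)
        · exact P.symm_apply_apply (p.1 a)
        · exact Q.symm_apply_apply (p.2 b)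
      right_inv := fun q => by
        funext s
        refine Prod.ext (funext fun a => ?_) (funext fun b => ?_)
        · exact congrFun (P.apply_symm_apply fun s => (q s).1 a) s
        · exact congrFun (Q.apply_symm_apply fun s => (q s).2 b) s }
  have hPs : ∀ (j : κ) (x : Ac → V2 k), P (∑ a, Lc j a • x a) = ∑ a, Lc j a • P (x a) := by
    intro j x
    let P' : V2 k →+ (Fin m ⊕ Fin n → ZMod 2) := AddMonoidHom.mk' P hP1
    show P' _ = _
    rw [map_sum]
    exact sum_congr rfl fun a _ => hP2 _ _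
  have hQs : ∀ (j : κ) (y : Ar → V2 k), Q (∑ b, Lr j b • y b) = ∑ b, Lr j b • Q (y b) := by
    intro j x
    let Q' : V2 k →+ (Fin m ⊕ Fin n → ZMod 2) := AddMonoidHom.mk' Q hQ1
    show Q' _ = _
    rw [map_sum]
    exact sum_congr rfl fun a _ => hQ2 _ _
  have hterm : ∀ p : (Ac → V2 k) × (Ar → V2 k),
      (if (∀ j, ∑ a, Lc j a • p.1 a ∈ X) ∧ (∀ j, ∑ b, Lr j b • p.2 b ∈ pp X) then
        sg (ex3 MM p.1 p.2) else 0) = ∏ s, g s (σ p s) := by
    rintro ⟨x, y⟩
    have h1 : (∀ j, ∑ a, Lc j a • x a ∈ X) ↔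
        ∀ i : Fin n, ∀ j, ∑ a, Lc j a * P (x a) (Sum.inr i) = 0 := by
      simp only [hX, hPs]
      constructor
      · intro h i j
        have h2 := h j i
        rw [Finset.sum_apply] at h2
        exact h2
      · intro h j i
        rw [Finset.sum_apply]
        exact h i j
    have h2 : (∀ j, ∑ b, Lr j b • y b ∈ pp X) ↔
        ∀ i : Fin m, ∀ j, ∑ b, Lr j b * Q (y b) (Sum.inl i) = 0 := by
      simp only [hpp, hQs]
      constructor
      · intro h i j
        have h2 := h j i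
        rw [Finset.sum_apply] at h2
        exact h2
      · intro h j i
        rw [Finset.sum_apply]
        exact h i j
    have h3 : ∑ s, ex1' MM (fun a => P (x a) s) (fun b => Q (y b) s) = ex3 MM x y := by
      unfold ex3 ex1'
      rw [sum_comm]
      refine sum_congr rfl fun b _ => ?_
      rw [sum_comm]
      refine sum_congr rfl fun a _ => ?_
      rw [hdot, mul_sum]
    rw [Fintype.prod_sum_type]
    have h4 : ∏ i : Fin m, g (Sum.inl i) (σ (x, y) (Sum.inl i)) =
        if ∀ i : Fin m, ∀ j, ∑ b, Lr j b * Q (y b) (Sum.inl i) = 0 then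
          ∏ i : Fin m, sg (ex1' MM (fun a => P (x a) (Sum.inl i)) fun b => Q (y b) (Sum.inl i))
        else 0 := by
      split_ifs with h
      · exact prod_congr rfl fun i _ => if_pos (h i)
      · push Not at h
        obtain ⟨i, j, hi⟩ := h
        exact prod_eq_zero (mem_univ i) (if_neg fun h' => hi (h' j))
    have h5 : ∏ i : Fin n, g (Sum.inr i) (σ (x, y) (Sum.inr i)) =
        if ∀ i : Fin n, ∀ j, ∑ a, Lc j a * P (x a) (Sum.inr i) = 0 then
          ∏ i : Fin n, sg (ex1' MM (fun a => P (x a) (Sum.inr i)) fun b => Q (y b) (Sum.inr i))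
        else 0 := by
      split_ifs with h
      · exact prod_congr rfl fun i _ => if_pos (h i)
      · push Not at h
        obtain ⟨i, j, hi⟩ := h
        exact prod_eq_zero (mem_univ i) (if_neg fun h' => hi (h' j))
    rw [h4, h5]
    rw [if_congr h1.symm rfl rfl, if_congr h2.symm rfl rfl]
    by_cases hc1 : ∀ j, ∑ a, Lc j a • x a ∈ X
    · by_cases hc2 : ∀ j, ∑ b, Lr j b • y b ∈ pp X
      · rw [if_pos ⟨hc1, hc2⟩, if_pos hc2, if_pos hc1, ← h3, sg2_sum, Fintype.prod_sum_type]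
      · rw [if_neg fun h => hc2 h.2, if_neg hc2, zero_mul]
    · rw [if_neg fun h => hc1 h.1, if_neg hc1, mul_zero]
  unfold ZX
  rw [← Fintype.sum_prod_type', sum_congr rfl fun p _ => hterm p, ← hprod, prod_univ_sum,
    Fintype.piFinset_univ]
  exact Equiv.sum_comp σ fun q => ∏ s, g s (q s)

open Classical in
/-- The number of the trivial vectors of the columns. -/
def tcn (Lc : κ → Ac → ZMod 2) (MM : Ar → Ac → ZMod 2) : ℕ :=
  (univ.filter fun x : Ac → ZMod 2 => (∀ j, ∑ a, Lc j a * x a = 0) ∧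
    ∀ b, ∑ a, MM b a * x a = 0).card

open Classical in
/-- The number of the trivial vectors of the rows. -/
def trn (Lr : κ → Ar → ZMod 2) (MM : Ar → Ac → ZMod 2) : ℕ :=
  (univ.filter fun y : Ar → ZMod 2 => (∀ j, ∑ b, Lr j b * y b = 0) ∧
    ∀ a, ∑ b, MM b a * y b = 0).card

theorem sum_lin {A : Type} [Fintype A] [DecidableEq A] (z : A → ZMod 2) :
    ∑ v : A → ZMod 2, sg (∑ a, v a * z a) = if z = 0 then (2 : ℝ) ^ Fintype.card A else 0 := by
  split_ifs with h
  · subst h
    simp only [Pi.zero_apply, mul_zero, sum_const_zero, sg2_zero, sum_const, card_univ,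
      Fintype.card_fun, ZMod.card, nsmul_eq_mul, mul_one]
    push_cast
    rfl
  · obtain ⟨i, hi⟩ := Function.ne_iff.1 h
    refine sum_sg2_eq_zero (fun v : A → ZMod 2 => ∑ a, v a * z a) (Pi.single i 1) (z i) hi
      fun v => ?_
    simp only [Pi.add_apply, add_mul, sum_add_distrib]
    congr 1
    simp [Pi.single_apply]

theorem fc_eq (Lc : κ → Ac → ZMod 2) (MM : Ar → Ac → ZMod 2) :
    fc Lc MM = 2 ^ Fintype.card Ar * tcn Lc MM := by
  classical
  have h1 : ∀ x : Ac → ZMod 2, (∑ y : Ar → ZMod 2,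
      if ∀ j, ∑ a, Lc j a * x a = 0 then sg (ex1' MM x y) else 0) =
      if (∀ j, ∑ a, Lc j a * x a = 0) ∧ ∀ b, ∑ a, MM b a * x a = 0 then
        (2 : ℝ) ^ Fintype.card Ar else 0 := by
    intro x
    have h2 : ∀ y : Ar → ZMod 2, ex1' MM x y = ∑ b, y b * ∑ a, MM b a * x a := by
      intro y
      unfold ex1'
      refine sum_congr rfl fun b _ => ?_
      rw [mul_sum]
      exact sum_congr rfl fun a _ => by ring
    by_cases hx : ∀ j, ∑ a, Lc j a * x a = 0
    · simp only [hx, implies_true, if_true, h2, true_and]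
      rw [sum_lin]
      exact if_congr funext_iff rfl rfl
    · rw [if_neg fun h => hx h.1]
      simp only [hx, if_false, sum_const_zero]
  unfold fc tcn
  rw [sum_congr rfl fun x _ => h1 x, ← sum_filter, sum_const, nsmul_eq_mul, mul_comm]

theorem fr_eq (Lr : κ → Ar → ZMod 2) (MM : Ar → Ac → ZMod 2) :
    fr Lr MM = 2 ^ Fintype.card Ac * trn Lr MM := by
  classical
  have h1 : ∀ y : Ar → ZMod 2, (∑ x : Ac → ZMod 2,
      if ∀ j, ∑ b, Lr j b * y b = 0 then sg (ex1' MM x y) else 0) =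
      if (∀ j, ∑ b, Lr j b * y b = 0) ∧ ∀ a, ∑ b, MM b a * y b = 0 then
        (2 : ℝ) ^ Fintype.card Ac else 0 := by
    intro y
    have h2 : ∀ x : Ac → ZMod 2, ex1' MM x y = ∑ a, x a * ∑ b, MM b a * y b := by
      intro x
      unfold ex1'
      rw [sum_comm]
      refine sum_congr rfl fun a _ => ?_
      rw [mul_sum]
      exact sum_congr rfl fun b _ => by ring
    by_cases hy : ∀ j, ∑ b, Lr j b * y b = 0
    · simp only [hy, implies_true, if_true, h2, true_and]
      rw [sum_lin]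
      exact if_congr funext_iff rfl rfl
    · rw [if_neg fun h => hy h.1]
      simp only [hy, if_false, sum_const_zero]
  unfold fr trn
  rw [sum_comm, sum_congr rfl fun y _ => h1 y, ← sum_filter, sum_const, nsmul_eq_mul, mul_comm]

end ZX

end

end Pool.Agent.Lib.MP_1a91b9_ntV.DS
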