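import Pool.Agent.Lib.MP_1a91b9_ntV.DS.Fou
import Pool.Agent.Lib.MP_1a91b9_ntV.DS.ZX

/-!
# MP_1a91b9_nt (K = ℚ(√-7)), part D: the main coefficient of a class

`TG_eq`: the main coefficient is the number of the subspaces times a power of the number of the
trivial vectors.
-/

set_option autoImplicit false
set_option linter.unusedSectionVars false

namespace Pool.Agent.Lib.MP_1a91b9_ntV.DS

open Finset Pool.Agent.Lib.MP_1a91b9_ntH Pool.Agent.Lib.MP_1a91b9_ntQ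
  Pool.Agent.Lib.MP_1a91b9_ntQ.Da Pool.Agent.Lib.MP_1a91b9_ntV

noncomputable section

variable {k : ℕ}

/-! ### The subspaces `X × pp X` -/

open Classical in
/-- The totally singular subspace of `X`. -/
def WX (X : Sb k) : Finset (Lab2 k) := univ.filter fun l => l.1 ∈ X ∧ l.2 ∈ pp X

theorem mem_WX {X : Sb k} {l : Lab2 k} : l ∈ WX X ↔ l.1 ∈ X ∧ l.2 ∈ pp X := by
  classical
  rw [WX, mem_filter]
  exact ⟨fun h => h.2, fun h => ⟨mem_univ _, h⟩⟩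

theorem WX_unl (X : Sb k) : Unl2 (WX X) := by
  intro l hl m hm
  rw [mem_WX] at hl hm
  rw [l2_sub, Q2, dotProduct_comm]
  exact (pp X).add_mem hl.2 hm.2 _ (X.add_mem hl.1 hm.1)

theorem WX_zero (X : Sb k) : 0 ∈ WX X := mem_WX.2 ⟨X.zero_mem, (pp X).zero_mem⟩

theorem WX_add {X : Sb k} {l m : Lab2 k} (hl : l ∈ WX X) (hm : m ∈ WX X) : l + m ∈ WX X := by
  rw [mem_WX] at *
  exact ⟨X.add_mem hl.1 hm.1, (pp X).add_mem hl.2 hm.2⟩

theorem WX_perp {X : Sb k} {l : Lab2 k} (hl : l ∉ WX X) : ∃ m ∈ WX X, B2 l m ≠ 0 := by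
  rw [mem_WX, not_and_or] at hl
  rcases hl with h | h
  · rw [← pp_pp X] at h
    have h1 : ¬ ∀ y ∈ pp X, l.1 ⬝ᵥ y = 0 := h
    push Not at h1
    obtain ⟨y, hy, hne⟩ := h1
    refine ⟨(0, y), mem_WX.2 ⟨X.zero_mem, hy⟩, ?_⟩
    show l.1 ⬝ᵥ y + 0 ⬝ᵥ l.2 ≠ 0
    rwa [zero_dotProduct, add_zero]
  · have h1 : ¬ ∀ x ∈ X, l.2 ⬝ᵥ x = 0 := h
    push Not at h1
    obtain ⟨x, hx, hne⟩ := h1
    refine ⟨(x, 0), mem_WX.2 ⟨hx, (pp X).zero_mem⟩, ?_⟩
    show l.1 ⬝ᵥ 0 + x ⬝ᵥ l.2 ≠ 0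
    rwa [dotProduct_zero, zero_add, dotProduct_comm]

theorem WX_char (X : Sb k) (l : Lab2 k) :
    ∑ w ∈ WX X, sg (B2 l w) = if l ∈ WX X then ((WX X).card : ℝ) else 0 := by
  split_ifs with hl
  · exact sum_B2_mem fun w hw => (WX_unl X).B (WX_zero X) hl hw
  · obtain ⟨s, hs, hls⟩ := WX_perp hl
    have h1 : ∑ x ∈ WX X, sg (B2 l x) = ∑ x ∈ WX X, sg (B2 l (x + s)) := by
      refine (sum_nbij' (fun x => x + s) (fun x => x + s) ?_ ?_ ?_ ?_ ?_).symm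
      · intro x hx; exact WX_add hx hs
      · intro x hx; exact WX_add hx hs
      · intro x _; exact l2_add_add x s
      · intro x _; exact l2_add_add x s
      · intro x _; rfl
    have h2 : ∑ x ∈ WX X, sg (B2 l (x + s)) = sg (B2 l s) * ∑ x ∈ WX X, sg (B2 l x) := by
      rw [mul_sum]
      refine sum_congr rfl fun x _ => ?_
      rw [B2_add, sg2_add, mul_comm]
    rw [z2_ne hls, Pool.Agent.Lib.MP_1a91b9_ntQ.sg2_one] at h2
    linarith

theorem card_WX (X : Sb k) : (WX X).card = 2 ^ k := by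
  have h1 : ∑ l, ∑ x ∈ WX X, sg (B2 l x) = (4 ^ k : ℝ) := by
    rw [sum_comm]
    simp only [sum_B2]
    rw [sum_ite_eq', if_pos (WX_zero X)]
  simp only [WX_char] at h1
  rw [sum_ite_mem, univ_inter, sum_const, nsmul_eq_mul] at h1
  have h2 : (WX X).card * (WX X).card = 4 ^ k := by exact_mod_cast h1
  rw [← sq, ← two_pow_sq] at h2
  exact (Nat.pow_left_injective (n := 2) two_ne_zero) h2

theorem WX_mx (X : Sb k) : Mx2 (WX X) := ⟨WX_unl X, card_WX X, WX_zero X⟩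

theorem WX_bb (X : Sb k) : bb0 (WX X) := fun _ hh _ hh' =>
  (mem_WX.1 hh').2 _ (mem_WX.1 hh).1

theorem WX_inj {X Y : Sb k} (h : WX X = WX Y) : X = Y := by
  have h1 : ∀ (Z : Sb k) (x : V2 k), x ∈ Z ↔ ((x, 0) : Lab2 k) ∈ WX Z := fun Z x => by
    rw [mem_WX]
    exact ⟨fun h => ⟨h, (pp Z).zero_mem⟩, fun h => h.1⟩
  ext x
  rw [h1 X, h1 Y, h]

theorem exists_WX {W : Finset (Lab2 k)} (hW : Mx2 W) (hbb : bb0 W) : ∃ X, WX X = W := by
  let X : Sb k :=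
    { carrier := {x | ∀ h ∈ W, h.2 ⬝ᵥ x = 0}
      add_mem' := by
        intro a b ha hb h hh
        rw [dotProduct_add, ha h hh, hb h hh, add_zero]
      zero_mem' := fun h _ => dotProduct_zero _
      smul_mem' := by
        intro c a ha h hh
        rw [dotProduct_smul, ha h hh, smul_zero] }
  refine ⟨X, (eq_of_subset_of_card_le (fun l hl => ?_) ?_).symm⟩
  · rw [mem_WX]
    exact ⟨fun h hh => hbb l hl h hh, fun x hx => hx l hl⟩
  · rw [card_WX, hW.card]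

open Classical in
theorem sum_bb (F : Finset (Lab2 k) → ℝ) :
    ∑ W ∈ Lgs2 k, (if bb0 W then F W else 0) = ∑ X : Sb k, F (WX X) := by
  rw [← sum_filter]
  refine (sum_bij (fun X _ => WX X) ?_ ?_ ?_ ?_).symm
  · intro X _
    rw [mem_filter, mem_Lgs2]
    exact ⟨WX_mx X, WX_bb X⟩
  · intro X _ Y _ h
    exact WX_inj h
  · intro W hW
    rw [mem_filter, mem_Lgs2] at hW
    obtain ⟨X, hX⟩ := exists_WX hW.1 hW.2
    exact ⟨X, mem_univ _, hX⟩
  · intro X _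
    rfl

/-! ### The condition and the exponent -/

variable {κ : Type} [Fintype κ] [DecidableEq κ] {E : Type} [Fintype E] [DecidableEq E]
  {F : Type} [Fintype F] [DecidableEq F]

/-- The class vectors of the columns. -/
def Lc (P : BD κ E F) (j : κ) (a : Option E) : ZMod 2 := a.elim (P.kap j) fun e => P.be e j

/-- The class vectors of the rows. -/
def Lr (P : BD κ E F) (w γ : κ → ZMod 2) (j : κ) (b : Option F) : ZMod 2 :=
  b.elim (P.kap j + (1 + w ⬝ᵥ γ) * w j) fun f => P.bf f j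

/-- The corner with the values of the class vectors. -/
def MMt (P : BD κ E F) (γ : κ → ZMod 2) (b : Option F) (a : Option E) : ZMod 2 :=
  b.elim (a.elim (P.kap ⬝ᵥ γ) fun e => P.be e ⬝ᵥ γ) fun f => a.elim (P.bf f ⬝ᵥ γ) (P.R f)

/-- The labels of the columns. -/
def xo (m : BL k E F) (u : Lab2 k) (a : Option E) : V2 k := a.elim u.1 m.1

/-- The labels of the rows. -/
def yo (m : BL k E F) (u : Lab2 k) (b : Option F) : V2 k := b.elim u.2 m.2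

omit [DecidableEq κ] [DecidableEq E] [DecidableEq F] in
theorem cN_sh (P : BD κ E F) (m : BL k E F) {h : Lab2 k} (hh : Q2 h = 0) (u : Lab2 k) (j : κ) :
    cN P m (h + u) j + cN P m u j = P.kap j * B2 h u + (∑ e, P.be e j * (h.2 ⬝ᵥ m.1 e) +
      ∑ f, P.bf f j * (m.2 f ⬝ᵥ h.1)) := by
  unfold cN
  rw [Q2_add, hh]
  simp only [Prod.fst_add, Prod.snd_add, add_dotProduct, dotProduct_add, mul_add,
    sum_add_distrib]
  linear_combination (P.kap j * Q2 u + ∑ e, P.be e j * (u.2 ⬝ᵥ m.1 e) +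
    ∑ f, P.bf f j * (m.2 f ⬝ᵥ u.1)) * two0

theorem cN_aff (P : BD κ E F) (m : BL k E F) {W : Finset (Lab2 k)} (hW : Mx2 W) (u : Lab2 k)
    (h1 : Lab2 k) (m1 : h1 ∈ W) (h2 : Lab2 k) (m2 : h2 ∈ W) :
    cN P m u + cN P m (h1 + u) + cN P m (h2 + u) + cN P m (h1 + h2 + u) = 0 := by
  have m3 := hW.add_mem m1 m2
  funext j
  have a1 := cN_sh P m (hW.unl.Q hW.zero m1) u j
  have a2 := cN_sh P m (hW.unl.Q hW.zero m2) u j
  have a3 := cN_sh P m (hW.unl.Q hW.zero m3) u j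
  rw [B2_add'] at a3
  simp only [Prod.fst_add, Prod.snd_add, add_dotProduct, dotProduct_add, mul_add,
    sum_add_distrib] at a3
  show cN P m u j + cN P m (h1 + u) j + cN P m (h2 + u) j + cN P m (h1 + h2 + u) j = 0
  linear_combination a1 + a2 + a3 + (P.kap j * B2 h1 u + ∑ e, P.be e j * (h1.2 ⬝ᵥ m.1 e) +
    ∑ f, P.bf f j * (m.2 f ⬝ᵥ h1.1) + P.kap j * B2 h2 u + ∑ e, P.be e j * (h2.2 ⬝ᵥ m.1 e) +
    ∑ f, P.bf f j * (m.2 f ⬝ᵥ h2.1) - cN P m u j) * two0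

theorem cond_WX (P : BD κ E F) (w γ : κ → ZMod 2) (X : Sb k) (u : Lab2 k) (m : BL k E F) :
    (∀ l ∈ sh2 u (WX X), cN P m l + cN P m u =
      ((1 + w ⬝ᵥ γ) * (u.2 ⬝ᵥ (l.1 + u.1))) • w) ↔
    (∀ j, ∑ a, Lc P j a • xo m u a ∈ X) ∧ ∀ j, ∑ b, Lr P w γ j b • yo m u b ∈ pp X := by
  have h0 : (∀ l ∈ sh2 u (WX X), cN P m l + cN P m u =
      ((1 + w ⬝ᵥ γ) * (u.2 ⬝ᵥ (l.1 + u.1))) • w) ↔
      ∀ h ∈ WX X, ∀ j, P.kap j * B2 h u + (∑ e, P.be e j * (h.2 ⬝ᵥ m.1 e) +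
        ∑ f, P.bf f j * (m.2 f ⬝ᵥ h.1)) = (1 + w ⬝ᵥ γ) * (u.2 ⬝ᵥ h.1) * w j := by
    constructor
    · intro H h hh j
      have h1 := congrFun (H (h + u) (by rw [mem_sh2, l2_add_add]; exact hh)) j
      rw [Pi.add_apply, cN_sh P m ((WX_unl X).Q (WX_zero X) hh)] at h1
      rw [h1]
      have h2 : (h + u).1 + u.1 = h.1 := by
        rw [Prod.fst_add, add_assoc, fun_add_self, add_zero]
      rw [h2]
      rfl
    · intro H l hl
      rw [mem_sh2] at hl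
      funext j
      have h1 := H _ hl j
      rw [← cN_sh P m ((WX_unl X).Q (WX_zero X) hl), l2_add_add] at h1
      exact h1
  have hQ : ∀ j, (∑ a, Lc P j a • xo m u a ∈ X) ↔ ∀ y ∈ pp X,
      P.kap j * (u.1 ⬝ᵥ y) + ∑ e, P.be e j * (y ⬝ᵥ m.1 e) = 0 := by
    intro j
    have h1 : ∀ y : V2 k, (∑ a, Lc P j a • xo m u a) ⬝ᵥ y =
        P.kap j * (u.1 ⬝ᵥ y) + ∑ e, P.be e j * (y ⬝ᵥ m.1 e) := by
      intro y
      rw [Fintype.sum_option, add_dotProduct, sum_dotProduct]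
      refine congrArg₂ _ ?_ (sum_congr rfl fun e _ => ?_)
      · show (P.kap j • u.1) ⬝ᵥ y = _
        rw [smul_dotProduct, smul_eq_mul]
      · show (P.be e j • m.1 e) ⬝ᵥ y = _
        rw [smul_dotProduct, smul_eq_mul, dotProduct_comm]
    have h2 : (∑ a, Lc P j a • xo m u a ∈ X) ↔ ∑ a, Lc P j a • xo m u a ∈ pp (pp X) := by
      rw [pp_pp]
    rw [h2]
    simp only [mem_pp, h1]
  have hP : ∀ j, (∑ b, Lr P w γ j b • yo m u b ∈ pp X) ↔ ∀ x ∈ X,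
      (P.kap j + (1 + w ⬝ᵥ γ) * w j) * (u.2 ⬝ᵥ x) + ∑ f, P.bf f j * (m.2 f ⬝ᵥ x) = 0 := by
    intro j
    have h1 : ∀ x : V2 k, (∑ b, Lr P w γ j b • yo m u b) ⬝ᵥ x =
        (P.kap j + (1 + w ⬝ᵥ γ) * w j) * (u.2 ⬝ᵥ x) + ∑ f, P.bf f j * (m.2 f ⬝ᵥ x) := by
      intro x
      rw [Fintype.sum_option, add_dotProduct, sum_dotProduct]
      refine congrArg₂ _ ?_ (sum_congr rfl fun f _ => ?_)
      · show ((P.kap j + (1 + w ⬝ᵥ γ) * w j) • u.2) ⬝ᵥ x = _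
        rw [smul_dotProduct, smul_eq_mul]
      · show (P.bf f j • m.2 f) ⬝ᵥ x = _
        rw [smul_dotProduct, smul_eq_mul]
    simp only [mem_pp, h1]
  rw [h0]
  simp only [hQ, hP]
  constructor
  · intro H
    refine ⟨fun j y hy => ?_, fun j x hx => ?_⟩
    · have h1 := H (0, y) (mem_WX.2 ⟨X.zero_mem, hy⟩) j
      simp only [B2, zero_dotProduct, dotProduct_zero, zero_add, mul_zero, sum_const_zero,
        add_zero, zero_mul] at h1
      exact h1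
    · have h1 := H (x, 0) (mem_WX.2 ⟨hx, (pp X).zero_mem⟩) j
      simp only [B2, zero_dotProduct, dotProduct_zero, zero_add, mul_zero, sum_const_zero,
        add_zero] at h1
      rw [dotProduct_comm x] at h1
      linear_combination h1 + ((1 + w ⬝ᵥ γ) * w j * (u.2 ⬝ᵥ x)) * two0
  · rintro ⟨H1, H2⟩ h hh j
    have h1 := H1 j _ (mem_WX.1 hh).2
    have h2 := H2 j _ (mem_WX.1 hh).1
    rw [B2, dotProduct_comm h.1]
    linear_combination h1 + h2 - ((1 + w ⬝ᵥ γ) * w j * (u.2 ⬝ᵥ h.1)) * two0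

theorem ex_eq (P : BD κ E F) (γ : κ → ZMod 2) (u : Lab2 k) (m : BL k E F) :
    RG P m + cN P m u ⬝ᵥ γ = ex3 (MMt P γ) (xo m u) (yo m u) := by
  have h1 : cN P m u ⬝ᵥ γ = (P.kap ⬝ᵥ γ) * (u.2 ⬝ᵥ u.1) +
      (∑ e, (P.be e ⬝ᵥ γ) * (u.2 ⬝ᵥ m.1 e) + ∑ f, (P.bf f ⬝ᵥ γ) * (m.2 f ⬝ᵥ u.1)) := by
    have a1 : ∀ j, cN P m u j * γ j = P.kap j * γ j * (u.2 ⬝ᵥ u.1) +
        (∑ e, P.be e j * γ j * (u.2 ⬝ᵥ m.1 e) + ∑ f, P.bf f j * γ j * (m.2 f ⬝ᵥ u.1)) := by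
      intro j
      unfold cN
      rw [add_mul, add_mul, sum_mul, sum_mul, Q2, dotProduct_comm u.1]
      refine congrArg₂ _ (by ring) (congrArg₂ _ (sum_congr rfl fun e _ => by ring)
        (sum_congr rfl fun f _ => by ring))
    have a2 : cN P m u ⬝ᵥ γ = ∑ j, cN P m u j * γ j := rfl
    rw [a2, sum_congr rfl fun j _ => a1 j, sum_add_distrib, sum_add_distrib, ← sum_mul,
      sum_comm (s := (univ : Finset κ)) (t := (univ : Finset E)),
      sum_comm (s := (univ : Finset κ)) (t := (univ : Finset F))]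
    refine congrArg₂ _ rfl (congrArg₂ _ (sum_congr rfl fun e _ => (sum_mul _ _ _).symm)
        (sum_congr rfl fun f _ => (sum_mul _ _ _).symm))
  have h2 : ex3 (MMt P γ) (xo m u) (yo m u) = ((P.kap ⬝ᵥ γ) * (u.2 ⬝ᵥ u.1) +
      ∑ e, (P.be e ⬝ᵥ γ) * (u.2 ⬝ᵥ m.1 e)) +
      ∑ f, ((P.bf f ⬝ᵥ γ) * (m.2 f ⬝ᵥ u.1) + ∑ e, P.R f e * (m.2 f ⬝ᵥ m.1 e)) := by
    unfold ex3
    rw [Fintype.sum_option, Fintype.sum_option]
    refine congrArg₂ _ rfl (sum_congr rfl fun f _ => ?_)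
    rw [Fintype.sum_option]
    rfl
  rw [h1, h2, sum_add_distrib, RG]
  ring

/-- The labels of the border and of the base point. -/
def eqv (k : ℕ) (E F : Type) : Lab2 k × BL k E F ≃ (Option E → V2 k) × (Option F → V2 k) where
  toFun p := (xo p.2 p.1, yo p.2 p.1)
  invFun q := ((q.1 none, q.2 none), (fun e => q.1 (some e), fun f => q.2 (some f)))
  left_inv p := rfl
  right_inv q := by
    refine Prod.ext (funext fun a => ?_) (funext fun b => ?_)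
    · rcases a with - | e <;> rfl
    · rcases b with - | f <;> rfl

/-- The contribution of a maximal unlinked set. -/
def mC (P : BD κ E F) (w γ : κ → ZMod 2) (U : Finset (Lab2 k)) (m : BL k E F) : ℂ :=
  ∑ c0 : κ → ZMod 2, e2 (c0 ⬝ᵥ γ) * ∑ ce : Lab2 k → ZMod 2, Fh PhiQ ce * iN (ccN P w c0 m ce) U

open Classical in
theorem mC_eq (P : BD κ E F) {w : κ → ZMod 2} (hw : w ≠ 0) (γ : κ → ZMod 2)
    {U : Finset (Lab2 k)} (hU : U ∈ UsN k) {u : Lab2 k} (hu : u ∈ U) (m : BL k E F) :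
    mC P w γ U m = ((if bb0 (sh2 u U) ∧ ∀ l ∈ U, cN P m l + cN P m u =
      ((1 + w ⬝ᵥ γ) * (u.2 ⬝ᵥ (l.1 + u.1))) • w then sg (cN P m u ⬝ᵥ γ) else 0 : ℝ) : ℂ) := by
  have h1 := mainU hU hu hw γ (cN P m) fun h1 m1 h2 m2 => cN_aff P m (mx_sh hU hu) u h1 m1 h2 m2
  have h2 : mC P w γ U m = ∑ c0 : κ → ZMod 2, e2 (c0 ⬝ᵥ γ) * ∑ ce : Lab2 k → ZMod 2,
      Fh PhiQ ce * (if ∀ l ∈ U, c0 + cN P m l + ce l • w = 0 then 1 else 0) := by
    unfold mC iN ccN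
    rfl
  rw [h2, h1]
  split_ifs
  · rfl
  · rfl

theorem TG_sum (k : ℕ) (P : BD κ E F) (w γ : κ → ZMod 2) :
    TG k P w γ = ∑ U ∈ UsN k, ∑ m : BL k E F, e2 (RG P m) * mC P w γ U m := by
  unfold TG TN0 mC
  simp only [mul_sum]
  have h1 : ∀ (c0 : κ → ZMod 2),
      ∑ m : BL k E F, ∑ ce : Lab2 k → ZMod 2, ∑ U ∈ UsN k, e2 (c0 ⬝ᵥ γ) *
        (e2 (RG P m) * Fh PhiQ ce * iN (ccN P w c0 m ce) U) =
      ∑ U ∈ UsN k, ∑ m : BL k E F, ∑ ce : Lab2 k → ZMod 2, e2 (RG P m) * (e2 (c0 ⬝ᵥ γ) *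
        (Fh PhiQ ce * iN (ccN P w c0 m ce) U)) := by
    intro c0
    have h2 : ∀ m : BL k E F, ∑ ce : Lab2 k → ZMod 2, ∑ U ∈ UsN k, e2 (c0 ⬝ᵥ γ) *
        (e2 (RG P m) * Fh PhiQ ce * iN (ccN P w c0 m ce) U) =
        ∑ U ∈ UsN k, ∑ ce : Lab2 k → ZMod 2, e2 (RG P m) * (e2 (c0 ⬝ᵥ γ) *
          (Fh PhiQ ce * iN (ccN P w c0 m ce) U)) := by
      intro m
      rw [sum_comm]
      exact sum_congr rfl fun U _ => sum_congr rfl fun ce _ => by ring
    rw [sum_congr rfl fun m _ => h2 m, sum_comm]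
  rw [sum_congr rfl fun c0 _ => h1 c0, sum_comm]
  refine sum_congr rfl fun U _ => ?_
  rw [sum_comm]

open Classical in
/-- **The main coefficient of a class.** -/
theorem TG_eq (k : ℕ) (P : BD κ E F) {w : κ → ZMod 2} (hw : w ≠ 0) (γ : κ → ZMod 2)
    (hT : 2 ^ Fintype.card E * trn (Lr P w γ) (MMt P γ) =
      2 ^ Fintype.card F * tcn (Lc P) (MMt P γ)) :
    TG k P w γ = ((tcn (Lc P) (MMt P γ) ^ k * gN k 0 : ℕ) : ℂ) * (2 ^ k) ^ Fintype.card F := by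
  obtain ⟨t, ht⟩ : ∃ t : ℕ, t = tcn (Lc P) (MMt P γ) := ⟨_, rfl⟩
  -- the real form
  let g : Finset (Lab2 k) → ℝ := fun U => ∑ m : BL k E F, sg (RG P m) * (mC P w γ U m).re
  have h1 : TG k P w γ = ((∑ U ∈ MU k, g U : ℝ) : ℂ) := by
    rw [TG_sum, UsN_eq]
    push_cast
    refine sum_congr rfl fun U hU => ?_
    simp only [g]
    push_cast
    refine sum_congr rfl fun m _ => ?_
    have hU' : U ∈ UsN k := by rw [UsN_eq]; exact hU
    have hne : U.Nonempty := by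
      rw [← card_pos, (mem_UsN.1 hU').2]
      positivity
    obtain ⟨u, hu⟩ := hne
    rw [mC_eq P hw γ hU' hu m, Complex.ofReal_re]
    rfl
  -- the contribution of a subspace
  have h2 : ∀ W ∈ Lgs2 k, ∑ u : Lab2 k, g (sh2 u W) =
      if bb0 W then ∑ u : Lab2 k, ∑ m : BL k E F, sg (RG P m) *
        (if ∀ l ∈ sh2 u W, cN P m l + cN P m u =
          ((1 + w ⬝ᵥ γ) * (u.2 ⬝ᵥ (l.1 + u.1))) • w then sg (cN P m u ⬝ᵥ γ) else 0) else 0 := by
    intro W hW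
    rw [mem_Lgs2] at hW
    have h3 : ∀ u : Lab2 k, g (sh2 u W) = if bb0 W then ∑ m : BL k E F, sg (RG P m) *
        (if ∀ l ∈ sh2 u W, cN P m l + cN P m u =
          ((1 + w ⬝ᵥ γ) * (u.2 ⬝ᵥ (l.1 + u.1))) • w then sg (cN P m u ⬝ᵥ γ) else 0) else 0 := by
      intro u
      have hU : sh2 u W ∈ UsN k := by
        rw [mem_UsN]
        exact ⟨Unl_sh2 hW.unl, by rw [card_sh2, hW.card]⟩
      have hu : u ∈ sh2 u W := by
        rw [mem_sh2, l2_add_self]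
        exact hW.zero
      have h4 : ∀ m : BL k E F, (mC P w γ (sh2 u W) m).re = if bb0 W then
          (if ∀ l ∈ sh2 u W, cN P m l + cN P m u =
            ((1 + w ⬝ᵥ γ) * (u.2 ⬝ᵥ (l.1 + u.1))) • w then sg (cN P m u ⬝ᵥ γ) else 0) else 0 := by
        intro m
        rw [mC_eq P hw γ hU hu m, Complex.ofReal_re, sh2_sh2]
        by_cases hb : bb0 W
        · rw [if_pos hb]
          exact if_congr (and_iff_right hb) rfl rfl
        · rw [if_neg hb, if_neg fun h => hb h.1]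
      show ∑ m : BL k E F, sg (RG P m) * (mC P w γ (sh2 u W) m).re = _
      simp only [h4]
      by_cases hb : bb0 W
      · simp only [if_pos hb]
      · simp only [if_neg hb, mul_zero, sum_const_zero]
    rw [sum_congr rfl fun u _ => h3 u]
    by_cases hb : bb0 W
    · simp only [if_pos hb]
    · simp only [if_neg hb, sum_const_zero]
  -- the sum over the borders
  have h3 : ∀ X : Sb k, ∑ u : Lab2 k, ∑ m : BL k E F, sg (RG P m) *
        (if ∀ l ∈ sh2 u (WX X), cN P m l + cN P m u =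
          ((1 + w ⬝ᵥ γ) * (u.2 ⬝ᵥ (l.1 + u.1))) • w then sg (cN P m u ⬝ᵥ γ) else 0) =
      (2 ^ (Fintype.card F + 1) * (t : ℝ)) ^ k := by
    intro X
    have hr : fr (Lr P w γ) (MMt P γ) = 2 ^ (Fintype.card F + 1) * (t : ℝ) := by
      rw [fr_eq, Fintype.card_option, pow_succ, pow_succ, ht]
      have h4 : ((2 ^ Fintype.card E * trn (Lr P w γ) (MMt P γ) : ℕ) : ℝ) =
          ((2 ^ Fintype.card F * tcn (Lc P) (MMt P γ) : ℕ) : ℝ) := by rw [hT]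
      push_cast at h4
      linear_combination 2 * h4
    have hc : fc (Lc P) (MMt P γ) = 2 ^ (Fintype.card F + 1) * (t : ℝ) := by
      rw [fc_eq, Fintype.card_option, ht]
    rw [← ZX_eq (Lc P) (Lr P w γ) (MMt P γ) hr hc X]
    unfold ZX
    rw [← Fintype.sum_prod_type', ← Fintype.sum_prod_type']
    rw [← Equiv.sum_comp (eqv k E F)]
    refine sum_congr rfl fun p _ => ?_
    obtain ⟨u, m⟩ := p
    show sg (RG P m) * (if ∀ l ∈ sh2 u (WX X), cN P m l + cN P m u =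
      ((1 + w ⬝ᵥ γ) * (u.2 ⬝ᵥ (l.1 + u.1))) • w then sg (cN P m u ⬝ᵥ γ) else 0) =
      if (∀ j, ∑ a, Lc P j a • xo m u a ∈ X) ∧ (∀ j, ∑ b, Lr P w γ j b • yo m u b ∈ pp X) then
        sg (ex3 (MMt P γ) (xo m u) (yo m u)) else 0
    rw [if_congr (cond_WX P w γ X u m) rfl rfl, ← ex_eq, sg2_add]
    split_ifs
    · rfl
    · rw [mul_zero]
  have h4 := double_count_w (k := k) g
  rw [sum_congr rfl h2, sum_bb (fun W => ∑ u : Lab2 k, ∑ m : BL k E F, sg (RG P m) *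
        (if ∀ l ∈ sh2 u W, cN P m l + cN P m u =
          ((1 + w ⬝ᵥ γ) * (u.2 ⬝ᵥ (l.1 + u.1))) • w then sg (cN P m u ⬝ᵥ γ) else 0)),
    sum_congr rfl fun X _ => h3 X, sum_const, card_univ, card_Sb, nsmul_eq_mul] at h4
  have h5 : ∑ U ∈ MU k, g U = ((t ^ k * gN k 0 : ℕ) : ℝ) * (2 ^ k) ^ Fintype.card F := by
    have h6 : (2 ^ k : ℝ) ≠ 0 := by positivity
    refine mul_left_cancel₀ h6 ?_
    rw [h4]
    push_cast
    rw [mul_pow, ← pow_mul, ← pow_mul, add_mul, pow_add, mul_comm (Fintype.card F) k, one_mul]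
    ring
  rw [h1, h5, ← ht]
  push_cast
  rfl

end

end Pool.Agent.Lib.MP_1a91b9_ntV.DS
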