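import Pool.Agent.Lib.MP_1a91b9_ntV.D.ClsN
import Pool.Agent.Lib.MP_1a91b9_ntV.DS.Tot
import Pool.Agent.Lib.MP_1a91b9_ntV.DS.MomV

/-!
# MP_1a91b9_nt (K = ℚ(√-7)), part D: the density in a class

`denG_lower`, `denG_upper`: in every class the kernel of the bordered matrix consists of the trivial
vectors with density `∏ (1 - 2^{-i})`.
-/

set_option autoImplicit false
set_option linter.unusedSectionVars false

namespace Pool.Agent.Lib.MP_1a91b9_ntV.DS

open Finset Pool.Agent.Lib.MP_1a91b9_ntH Pool.Agent.Lib.MP_1a91b9_ntQ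
  Pool.Agent.Lib.MP_1a91b9_ntQ.Da Pool.Agent.Lib.MP_1a91b9_ntV

noncomputable section

variable {ι : Type} [DecidableEq ι] {κ : Type} [Fintype κ] [DecidableEq κ] {E : Type} [Fintype E]
  [DecidableEq E] {F : Type} [Fintype F] [DecidableEq F]

omit [DecidableEq κ] in
theorem kM_pow (D : Dat2 ι κ) (P : BD κ E F) (S : Finset ι) : ∃ r : ℕ, kM D P S = 2 ^ r := by
  have h1 : kM D P S = Nat.card (LinearMap.ker (NM D P S).mulVecLin) := by
    rw [kM, ← Nat.card_eq_fintype_card]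
    rfl
  have h2 := Module.natCard_eq_pow_finrank (K := ZMod 2)
    (V := LinearMap.ker (NM D P S).mulVecLin)
  rw [← h1, Nat.card_eq_fintype_card, ZMod.card] at h2
  exact ⟨_, h2⟩

theorem tcn_pow {Ac Ar K : Type} [Fintype Ac] [DecidableEq Ac] [Fintype Ar] [DecidableEq Ar]
    [Fintype K] (L : K → Ac → ZMod 2) (MM : Ar → Ac → ZMod 2) : ∃ r : ℕ, tcn L MM = 2 ^ r := by
  classical
  let V : Submodule (ZMod 2) (Ac → ZMod 2) :=
    { carrier := {x | (∀ j, ∑ a, L j a * x a = 0) ∧ ∀ b, ∑ a, MM b a * x a = 0}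
      add_mem' := by
        rintro x y ⟨h1, h2⟩ ⟨h3, h4⟩
        refine ⟨fun j => ?_, fun b => ?_⟩
        · simp only [Pi.add_apply, mul_add, sum_add_distrib]
          rw [h1, h3, add_zero]
        · simp only [Pi.add_apply, mul_add, sum_add_distrib]
          rw [h2, h4, add_zero]
      zero_mem' := ⟨fun j => by simp, fun b => by simp⟩
      smul_mem' := by
        rintro c x ⟨h1, h2⟩
        refine ⟨fun j => ?_, fun b => ?_⟩
        · have e : ∑ a, L j a * (c • x) a = c * ∑ a, L j a * x a := by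
            rw [mul_sum]
            exact sum_congr rfl fun a _ => by rw [Pi.smul_apply, smul_eq_mul]; ring
          rw [e, h1, mul_zero]
        · have e : ∑ a, MM b a * (c • x) a = c * ∑ a, MM b a * x a := by
            rw [mul_sum]
            exact sum_congr rfl fun a _ => by rw [Pi.smul_apply, smul_eq_mul]; ring
          rw [e, h2, mul_zero] }
  have h1 : tcn L MM = Nat.card V := by
    rw [tcn, Nat.card_eq_fintype_card, Fintype.card_subtype]
    congr 1
    ext x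
    rw [mem_filter, mem_filter]
    exact Iff.rfl
  have h2 := Module.natCard_eq_pow_finrank (K := ZMod 2) (V := V)
  rw [← h1, Nat.card_eq_fintype_card, ZMod.card] at h2
  exact ⟨_, h2⟩

/-- The trivial vectors are in the kernel. -/
theorem trivN (D : Dat2 ι κ) (P : BD κ E F) (S : Finset ι) {x : Option E → ZMod 2}
    (h1 : ∀ j, ∑ a, Lc P j a * x a = 0) (h2 : ∀ b, ∑ a, MMt P (clN D S) b a * x a = 0) :
    (NM D P S).mulVec (Sum.elim (fun _ => x none) fun e => x (some e)) = 0 := by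
  funext y
  rcases y with j | f
  · rw [NM_inl, Pi.zero_apply]
    simp only [Sum.elim_inl, Sum.elim_inr, z2_add_self, mul_zero, sum_const_zero, add_zero]
    have h3 : D.dg P.kap j * x none + ∑ e, D.dg (P.be e) j * x (some e) =
        ∑ i, (∑ a, Lc P i a * x a) * D.a j i := by
      have h4 : ∀ i, (∑ a, Lc P i a * x a) * D.a j i = P.kap i * D.a j i * x none +
          ∑ e, P.be e i * D.a j i * x (some e) := by
        intro i
        rw [Fintype.sum_option, add_mul, sum_mul]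
        refine congrArg₂ _ ?_ (sum_congr rfl fun e _ => ?_)
        · show P.kap i * x none * D.a j i = _
          ring
        · show P.be e i * x (some e) * D.a j i = _
          ring
      rw [sum_congr rfl fun i _ => h4 i, sum_add_distrib, ← sum_mul, sum_comm]
      refine congrArg₂ _ rfl (sum_congr rfl fun e _ => ?_)
      rw [← sum_mul]
      rfl
    rw [h3]
    exact sum_eq_zero fun i _ => by rw [h1 i, zero_mul]
  · rw [NM_inr, Pi.zero_apply]
    simp only [Sum.elim_inl, Sum.elim_inr]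
    rw [← h2 (some f), Fintype.sum_option, ← sum_mul, sum_coe_sort S fun q => D.dg (P.bf f) q,
      sum_dg]
    rfl

theorem tcn_le (D : Dat2 ι κ) (P : BD κ E F) {S : Finset ι} (hS : S ≠ ∅) :
    tcn (Lc P) (MMt P (clN D S)) ≤ kM D P S := by
  classical
  rw [tcn, kM, Fintype.card_subtype]
  refine card_le_card_of_injOn (fun x => Sum.elim (fun _ => x none) fun e => x (some e)) ?_ ?_
  · intro x hx
    have hx' := (mem_filter.1 hx).2
    exact mem_filter.2 ⟨mem_univ _, trivN D P S hx'.1 hx'.2⟩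
  · intro x _ y _ h
    obtain ⟨q, hq⟩ := nonempty_iff_ne_empty.2 hS
    funext a
    rcases a with - | e
    · exact congrFun h (Sum.inl ⟨q, hq⟩)
    · exact congrFun h (Sum.inr e)

/-- The size of the kernel divided by `t`. -/
def kV (D : Dat2 ι κ) (P : BD κ E F) (t : ℕ) (S : Finset ι) : ℕ :=
  2 ^ (Nat.log 2 (kM D P S) - Nat.log 2 t)

omit [DecidableEq κ] in
theorem kV_mul (D : Dat2 ι κ) (P : BD κ E F) {t : ℕ} (ht : ∃ r, t = 2 ^ r) {S : Finset ι}
    (hle : t ≤ kM D P S) : kM D P S = t * kV D P t S := by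
  obtain ⟨b, rfl⟩ := ht
  obtain ⟨a, ha⟩ := kM_pow D P S
  rw [kV, ha, Nat.log_pow (by norm_num), Nat.log_pow (by norm_num), ← pow_add]
  rw [ha] at hle
  have h1 := (Nat.pow_le_pow_iff_right (by norm_num : 1 < 2)).1 hle
  congr 1
  omega

/-! ### A family of finite sets with the class vector `γ` -/

/-- The hypotheses on the family. -/
structure Fam (D : Dat2 ι κ) (P : BD κ E F) (γ : κ → ZMod 2) (A : ℕ → Finset (Finset ι)) :
    Prop where
  cls : ∀ X, ∀ S ∈ A X, clN D S = γ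
  mom : ∀ k : ℕ, 1 ≤ k → ∀ ε : ℝ, 0 < ε → ∃ X₀ : ℕ, ∀ X : ℕ, X₀ ≤ X →
    |∑ S ∈ A X, (kM D P S : ℝ) ^ k -
      ((tcn (Lc P) (MMt P γ) : ℝ) ^ k * gN k 0) * (A X).card| ≤ ε * X

/-- The moments. -/
theorem Fam.MF {D : Dat2 ι κ} {P : BD κ E F} {γ : κ → ZMod 2} {A : ℕ → Finset (Finset ι)}
    (h : Fam D P γ A) (k : ℕ) :
    MF2 A (kV D P (tcn (Lc P) (MMt P γ))) (fun x => x ^ k) (gN k 0) := by
  have hcls := h.cls
  have hmom := h.mom k
  obtain ⟨t, ht⟩ : ∃ t : ℕ, t = tcn (Lc P) (MMt P γ) := ⟨_, rfl⟩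
  obtain ⟨b, hb⟩ := tcn_pow (Lc P) (MMt P γ)
  rw [← ht] at hb hmom ⊢
  have ht1 : (1 : ℝ) ≤ t := by
    rw [hb]
    push_cast
    exact one_le_pow₀ (by norm_num)
  rcases Nat.eq_zero_or_pos k with rfl | hk
  · intro ε hε
    refine ⟨0, fun X _ => ?_⟩
    simp only [pow_zero, sum_const, nsmul_eq_mul, mul_one, gN_zero, Nat.cast_one,
      one_mul, sub_self, abs_zero]
    positivity
  · intro ε hε
    obtain ⟨X0, h0⟩ := hmom hk (ε / 2) (by positivity)
    have hmul : ∀ X : ℕ, ∀ S ∈ A X, S ≠ ∅ → kM D P S = t * kV D P t S := by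
      intro X S hS hne
      refine kV_mul D P ⟨b, hb⟩ ?_
      rw [ht, ← hcls X S hS]
      exact tcn_le D P hne
    set M : ℝ := |(t : ℝ) ^ k * (kV D P t ∅ : ℝ) ^ k - (kM D P ∅ : ℝ) ^ k| with hM
    obtain ⟨X1, hX1⟩ := exists_nat_gt (2 * M / ε)
    refine ⟨max X0 X1, fun X hX => ?_⟩
    have h2 := h0 X (le_trans (le_max_left _ _) hX)
    have h3' : M ≤ ε / 2 * X := by
      have h4 : (X1 : ℝ) ≤ X := by exact_mod_cast le_trans (le_max_right _ _) hX
      have h5 := hX1.le.trans h4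
      rw [div_le_iff₀ hε] at h5
      linarith
    have hk1 : (1 : ℝ) ≤ (t : ℝ) ^ k := one_le_pow₀ ht1
    have h6 : |(t : ℝ) ^ k * ∑ S ∈ A X, (kV D P t S : ℝ) ^ k -
        ∑ S ∈ A X, (kM D P S : ℝ) ^ k| ≤ M := by
      rw [mul_sum, ← sum_sub_distrib]
      have h7 : ∀ S ∈ A X, S ≠ ∅ →
          (t : ℝ) ^ k * (kV D P t S : ℝ) ^ k - (kM D P S : ℝ) ^ k = 0 := by
        intro S hS hne
        rw [hmul X S hS hne]
        push_cast
        rw [mul_pow, sub_self]
      have h8 : ∑ S ∈ A X, ((t : ℝ) ^ k * (kV D P t S : ℝ) ^ k - (kM D P S : ℝ) ^ k) =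
          if (∅ : Finset ι) ∈ A X then
            (t : ℝ) ^ k * (kV D P t ∅ : ℝ) ^ k - (kM D P ∅ : ℝ) ^ k else 0 := by
        split_ifs with hm
        · exact sum_eq_single_of_mem ∅ hm fun S hS hne => h7 S hS hne
        · exact sum_eq_zero fun S hS => h7 S hS fun h => hm (h ▸ hS)
      rw [h8]
      split_ifs with hm
      · exact le_of_eq hM.symm
      · rw [abs_zero]
        exact abs_nonneg _
    have h9 : |(t : ℝ) ^ k * (∑ S ∈ A X, (kV D P t S : ℝ) ^ k -
        gN k 0 * (A X).card)| ≤ ε * X := by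
      have e : (t : ℝ) ^ k * (∑ S ∈ A X, (kV D P t S : ℝ) ^ k -
          gN k 0 * (A X).card) = ((t : ℝ) ^ k * ∑ S ∈ A X, (kV D P t S : ℝ) ^ k -
          ∑ S ∈ A X, (kM D P S : ℝ) ^ k) +
          (∑ S ∈ A X, (kM D P S : ℝ) ^ k -
            ((t : ℝ) ^ k * gN k 0) * (A X).card) := by
        ring
      rw [e]
      refine (abs_add_le _ _).trans ?_
      linarith
    rw [abs_mul, abs_of_pos (by positivity : (0 : ℝ) < (t : ℝ) ^ k)] at h9
    exact (le_mul_of_one_le_left (abs_nonneg _) hk1).trans h9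

theorem empty_small {ε : ℝ} (hε : 0 < ε) : ∃ X₁ : ℕ, ∀ X : ℕ, X₁ ≤ X → (1 : ℝ) ≤ ε / 2 * X := by
  obtain ⟨X1, hX1⟩ := exists_nat_gt (2 / ε)
  refine ⟨X1, fun X hX => ?_⟩
  have h4 : (X1 : ℝ) ≤ X := by exact_mod_cast hX
  have h5 := hX1.le.trans h4
  rw [div_le_iff₀ hε] at h5
  linarith

/-- Lower bound: the kernel consists of the trivial vectors with lower density at least
`∏ (1 - 2^{-i}) = 0.2887...`. -/
theorem Fam.lower {D : Dat2 ι κ} {P : BD κ E F} {γ : κ → ZMod 2} {A : ℕ → Finset (Finset ι)}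
    (h : Fam D P γ A) {κ₀ : ℝ} (hκ : κ₀ < cinfV) (ε : ℝ) (hε : 0 < ε) :
    ∃ X₀ : ℕ, ∀ X : ℕ, X₀ ≤ X → κ₀ * ((A X).card : ℝ) - ε * X ≤
      ((A X).filter fun S => S ≠ ∅ ∧ kM D P S = tcn (Lc P) (MMt P γ)).card := by
  obtain ⟨X0, h0⟩ := densV_lower (A := A) (kc := kV D P (tcn (Lc P) (MMt P γ)))
    (fun _ => ⟨_, rfl⟩) h.MF hκ (ε / 2) (by positivity)
  obtain ⟨X1, hX1⟩ := empty_small hε
  refine ⟨X0 + X1, fun X hX => ?_⟩
  have h1 := h0 X ((Nat.le_add_right _ _).trans hX)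
  have h2 := hX1 X ((Nat.le_add_left _ _).trans hX)
  have h4 : (A X).filter (fun S => kV D P (tcn (Lc P) (MMt P γ)) S = 1) ⊆
      insert ∅ ((A X).filter fun S => S ≠ ∅ ∧ kM D P S = tcn (Lc P) (MMt P γ)) := by
    intro S hS
    rw [mem_filter] at hS
    rw [mem_insert, mem_filter]
    by_cases hne : S = ∅
    · exact Or.inl hne
    · refine Or.inr ⟨hS.1, hne, ?_⟩
      have h6 := tcn_le D P hne
      rw [h.cls X S hS.1] at h6
      rw [kV_mul D P (tcn_pow _ _) h6, hS.2, mul_one]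
  have h5 := (card_le_card h4).trans (card_insert_le _ _)
  have h6 : (((A X).filter
      (fun S => kV D P (tcn (Lc P) (MMt P γ)) S = 1)).card : ℝ) ≤
      ((A X).filter fun S => S ≠ ∅ ∧ kM D P S = tcn (Lc P) (MMt P γ)).card + 1 := by
    exact_mod_cast h5
  linarith

/-- Upper bound. -/
theorem Fam.upper {D : Dat2 ι κ} {P : BD κ E F} {γ : κ → ZMod 2} {A : ℕ → Finset (Finset ι)}
    (h : Fam D P γ A) {κ₀ : ℝ} (hκ : cinfV < κ₀) (ε : ℝ) (hε : 0 < ε) :
    ∃ X₀ : ℕ, ∀ X : ℕ, X₀ ≤ X →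
      (((A X).filter fun S => kM D P S = tcn (Lc P) (MMt P γ)).card : ℝ) ≤
        κ₀ * (A X).card + ε * X := by
  obtain ⟨X0, h0⟩ := densV_upper (A := A) (kc := kV D P (tcn (Lc P) (MMt P γ)))
    (fun _ => ⟨_, rfl⟩) h.MF hκ (ε / 2) (by positivity)
  obtain ⟨X1, hX1⟩ := empty_small hε
  refine ⟨X0 + X1, fun X hX => ?_⟩
  have h1 := h0 X ((Nat.le_add_right _ _).trans hX)
  have h2 := hX1 X ((Nat.le_add_left _ _).trans hX)
  have h4 : (A X).filter (fun S => kM D P S = tcn (Lc P) (MMt P γ)) ⊆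
      insert ∅ ((A X).filter fun S => kV D P (tcn (Lc P) (MMt P γ)) S = 1) := by
    intro S hS
    rw [mem_filter] at hS
    rw [mem_insert, mem_filter]
    by_cases hne : S = ∅
    · exact Or.inl hne
    · refine Or.inr ⟨hS.1, ?_⟩
      have h6 := tcn_le D P hne
      rw [h.cls X S hS.1] at h6
      have h7 := kV_mul D P (tcn_pow _ _) h6
      rw [hS.2] at h7
      obtain ⟨r, hr⟩ := tcn_pow (Lc P) (MMt P γ)
      have h8 : 0 < tcn (Lc P) (MMt P γ) := by
        rw [hr]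
        positivity
      exact (Nat.eq_of_mul_eq_mul_left h8 (h7.symm.trans (mul_one _).symm))
  have h5 := (card_le_card h4).trans (card_insert_le _ _)
  have h6 : (((A X).filter fun S => kM D P S = tcn (Lc P) (MMt P γ)).card : ℝ) ≤
      ((A X).filter fun S => kV D P (tcn (Lc P) (MMt P γ)) S = 1).card + 1 := by
    exact_mod_cast h5
  linarith

/-! ### The classes -/

variable [PS ι] {G : Type} [AddCommGroup G] [Fintype G]

theorem famG {D : Dat2 ι κ} {w : κ → ZMod 2} (hD : OKt D w) (hw : w ≠ 0) (C : Cl2 D G)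
    (h3 : C.H3) (P : BD κ E F) (g : G) (hT : 2 ^ Fintype.card E *
      trn (Lr P w fun j => C.A j g) (MMt P fun j => C.A j g) =
      2 ^ Fintype.card F * tcn (Lc P) (MMt P fun j => C.A j g)) :
    Fam D P (fun j => C.A j g) (SG C g) where
  cls := by
    intro X S hS
    funext j
    show ∑ q ∈ S, D.a q j = C.A j g
    rw [← (mem_SG.1 hS).2, map_sum]
    exact sum_congr rfl fun q _ => C.ha q j
  mom := by
    intro k hk ε hε
    refine momN_G hD C h3 P hk g _ (by positivity) ?_ ε hε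
    rw [TG_eq k P hw _ hT]
    push_cast
    rfl

/-- **Part D**, lower bound: in every class of `G` the kernel consists of the trivial vectors with
lower density at least `∏ (1 - 2^{-i}) = 0.2887...`. -/
theorem denG_lower {D : Dat2 ι κ} {w : κ → ZMod 2} (hD : OKt D w) (hw : w ≠ 0) (C : Cl2 D G)
    (h3 : C.H3) (P : BD κ E F) (g : G) (hT : 2 ^ Fintype.card E *
      trn (Lr P w fun j => C.A j g) (MMt P fun j => C.A j g) =
      2 ^ Fintype.card F * tcn (Lc P) (MMt P fun j => C.A j g)) {κ₀ : ℝ} (hκ : κ₀ < cinfV)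
    (ε : ℝ) (hε : 0 < ε) :
    ∃ X₀ : ℕ, ∀ X : ℕ, X₀ ≤ X → κ₀ * ((SG C g X).card : ℝ) - ε * X ≤
      ((SG C g X).filter fun S => S ≠ ∅ ∧
        kM D P S = tcn (Lc P) (MMt P fun j => C.A j g)).card :=
  (famG hD hw C h3 P g hT).lower hκ ε hε

/-- **Part D**, upper bound. -/
theorem denG_upper {D : Dat2 ι κ} {w : κ → ZMod 2} (hD : OKt D w) (hw : w ≠ 0) (C : Cl2 D G)
    (h3 : C.H3) (P : BD κ E F) (g : G) (hT : 2 ^ Fintype.card E *
      trn (Lr P w fun j => C.A j g) (MMt P fun j => C.A j g) =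
      2 ^ Fintype.card F * tcn (Lc P) (MMt P fun j => C.A j g)) {κ₀ : ℝ} (hκ : cinfV < κ₀)
    (ε : ℝ) (hε : 0 < ε) :
    ∃ X₀ : ℕ, ∀ X : ℕ, X₀ ≤ X →
      (((SG C g X).filter fun S => kM D P S = tcn (Lc P) (MMt P fun j => C.A j g)).card : ℝ) ≤
        κ₀ * (SG C g X).card + ε * X :=
  (famG hD hw C h3 P g hT).upper hκ ε hε

end

end Pool.Agent.Lib.MP_1a91b9_ntV.DS
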