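import Pool.Agent.Lib.MP_1a91b9_ntV.D.MomN

/-!
# MP_1a91b9_nt (K = ℚ(√-7)), part D: the Fourier expansion of the sign of reciprocity

`mainU`: the contribution of a maximal unlinked set, summed over the characters of the class and
over the Fourier coefficients.
-/

set_option autoImplicit false
set_option linter.unusedSectionVars false

namespace Pool.Agent.Lib.MP_1a91b9_ntV.DS

open Finset Pool.Agent.Lib.MP_1a91b9_ntH Pool.Agent.Lib.MP_1a91b9_ntQ
  Pool.Agent.Lib.MP_1a91b9_ntQ.Da Pool.Agent.Lib.MP_1a91b9_ntV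

noncomputable section

theorem sum_z2 (f : ZMod 2 → ℂ) : ∑ τ, f τ = f 0 + f 1 := Fin.sum_univ_two f

theorem sum_tau (x : ZMod 2) : ∑ τ : ZMod 2, e2 (τ * x) = if x = 0 then 2 else 0 := by
  rw [sum_z2, zero_mul, e2_zero, one_mul]
  rcases z2 x with rfl | rfl
  · rw [e2_zero, if_pos rfl]; norm_num
  · rw [e2_one, if_neg one_ne_zero]; norm_num

section Gen

variable {L : Type} [Fintype L] [DecidableEq L]

open Classical in
/-- The functions with support in `U`. -/
def NU (U : Finset L) : Finset (L → ZMod 2) := univ.filter fun n => ∀ a, a ∉ U → n a = 0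

theorem mem_NU {U : Finset L} {n : L → ZMod 2} : n ∈ NU U ↔ ∀ a, a ∉ U → n a = 0 := by
  classical
  rw [NU, mem_filter]
  exact ⟨fun h => h.2, fun h => ⟨mem_univ _, h⟩⟩

theorem NU_add {U : Finset L} {n e : L → ZMod 2} (hn : n ∈ NU U) (he : e ∈ NU U) :
    n + e ∈ NU U := by
  rw [mem_NU] at *
  intro a ha
  rw [Pi.add_apply, hn a ha, he a ha, add_zero]

theorem fun_add_self (n : L → ZMod 2) : n + n = 0 := funext fun a => z2_add_self (n a)

theorem sum_NU {M : Type} [AddCommMonoid M] {U : Finset L} {n : L → ZMod 2} (hn : n ∈ NU U)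
    (g : L → ZMod 2 → M) (h0 : ∀ a, g a 0 = 0) : ∑ a, g a (n a) = ∑ a ∈ U, g a (n a) := by
  rw [mem_NU] at hn
  refine (sum_subset (subset_univ U) fun a _ ha => ?_).symm
  rw [hn a ha, h0]

/-- A sign reversing translation. -/
theorem NU_zero {U : Finset L} (F : (L → ZMod 2) → ZMod 2) (e : L → ZMod 2) (he : e ∈ NU U)
    (h : ∀ n ∈ NU U, F (n + e) = F n + 1) : ∑ n ∈ NU U, e2 (F n) = 0 := by
  have h1 : ∑ n ∈ NU U, e2 (F n) = ∑ n ∈ NU U, e2 (F (n + e)) := by
    refine (sum_nbij' (fun n => n + e) (fun n => n + e) ?_ ?_ ?_ ?_ ?_).symm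
    · intro n hn; exact NU_add hn he
    · intro n hn; exact NU_add hn he
    · intro n _
      show n + e + e = n
      rw [add_assoc, fun_add_self, add_zero]
    · intro n _
      show n + e + e = n
      rw [add_assoc, fun_add_self, add_zero]
    · intro n _; rfl
  have h2 : ∑ n ∈ NU U, e2 (F (n + e)) = -∑ n ∈ NU U, e2 (F n) := by
    rw [← sum_neg_distrib]
    refine sum_congr rfl fun n hn => ?_
    rw [h n hn, e2_add, e2_one, mul_neg, mul_one]
  have h3 := h1.trans h2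
  have h4 : (2 : ℂ) * ∑ n ∈ NU U, e2 (F n) = 0 := by linear_combination h3
  exact (mul_eq_zero.1 h4).resolve_left two_ne_zero

open Classical in
theorem prod_split (U : Finset L) (A B : L → ℂ) :
    ∏ a, (if a ∈ U then A a else B a) = (∏ a ∈ U, A a) * ∏ a ∈ Uᶜ, B a := by
  rw [prod_ite]
  congr 1
  · congr 1
    ext a
    simp
  · congr 1
    ext a
    simp

open Classical in
/-- The sum of the characters over the functions which are equal to `t` on `U`. -/
theorem sum_ext (U : Finset L) (t n : L → ZMod 2) :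
    ∑ c : L → ZMod 2, (if ∀ a ∈ U, c a = t a then e2 (∑ a, c a * n a) else 0) =
      if n ∈ NU U then e2 (∑ a ∈ U, t a * n a) * 2 ^ Uᶜ.card else 0 := by
  let g : L → ZMod 2 → ℂ := fun a x => if a ∈ U → x = t a then e2 (x * n a) else 0
  have h1 : ∀ c : L → ZMod 2, (if ∀ a ∈ U, c a = t a then e2 (∑ a, c a * n a) else 0) =
      ∏ a, g a (c a) := by
    intro c
    split_ifs with h
    · rw [e2_sum]
      exact prod_congr rfl fun a _ => (if_pos (h a)).symm
    · push Not at h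
      obtain ⟨a, ha, hne⟩ := h
      exact (prod_eq_zero (mem_univ a) (if_neg fun h' => hne (h' ha))).symm
  have h2 : ∀ a, ∑ x, g a x = if a ∈ U then e2 (t a * n a) else if n a = 0 then 2 else 0 := by
    intro a
    split_ifs with ha hn
    · have h3 : ∀ x, g a x = if x = t a then e2 (x * n a) else 0 := fun x =>
        if_congr ⟨fun h => h ha, fun h _ => h⟩ rfl rfl
      rw [sum_congr rfl fun x _ => h3 x, sum_ite_eq' univ (t a), if_pos (mem_univ _)]
    · have h3 : ∀ x, g a x = e2 (x * n a) := fun x => if_pos fun h => absurd h ha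
      rw [sum_congr rfl fun x _ => h3 x, sum_tau, if_pos hn]
    · have h3 : ∀ x, g a x = e2 (x * n a) := fun x => if_pos fun h => absurd h ha
      rw [sum_congr rfl fun x _ => h3 x, sum_tau, if_neg hn]
  rw [sum_congr rfl fun c _ => h1 c]
  have h3 : ∑ c : L → ZMod 2, ∏ a, g a (c a) = ∏ a, ∑ x, g a x := by
    rw [prod_univ_sum, Fintype.piFinset_univ]
  rw [h3, prod_congr rfl fun a _ => h2 a, prod_split, e2_sum]
  split_ifs with hn
  · rw [mem_NU] at hn
    rw [prod_congr rfl fun a ha => if_pos (hn a (mem_compl.1 ha)), prod_const]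
  · rw [mem_NU] at hn
    push Not at hn
    obtain ⟨a, ha, hne⟩ := hn
    rw [prod_eq_zero (mem_compl.2 ha) (if_neg hne), mul_zero]

open Classical in
theorem Fh_part (Phi : L → L → ZMod 2) (U : Finset L) (t : L → ZMod 2) :
    ∑ c : L → ZMod 2, (if ∀ a ∈ U, c a = t a then Fh Phi c else 0) =
      (∑ n ∈ NU U, e2 (FRc Phi n + ∑ a ∈ U, t a * n a)) / 2 ^ U.card := by
  have h2 : (2 : ℂ) ^ Fintype.card L ≠ 0 := pow_ne_zero _ (by norm_num)
  have h2' : (2 : ℂ) ^ U.card ≠ 0 := pow_ne_zero _ (by norm_num)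
  have h1 : ∀ c : L → ZMod 2, (if ∀ a ∈ U, c a = t a then Fh Phi c else 0) =
      (∑ n : L → ZMod 2, e2 (FRc Phi n) *
        (if ∀ a ∈ U, c a = t a then e2 (∑ a, c a * n a) else 0)) / 2 ^ Fintype.card L := by
    intro c
    split_ifs with h
    · rw [Fh]
      simp only [e2_add]
    · simp
  have h3 : ∑ c : L → ZMod 2, ∑ n : L → ZMod 2, e2 (FRc Phi n) *
        (if ∀ a ∈ U, c a = t a then e2 (∑ a, c a * n a) else 0) =
      (∑ n ∈ NU U, e2 (FRc Phi n + ∑ a ∈ U, t a * n a)) * 2 ^ Uᶜ.card := by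
    rw [sum_comm]
    have h4 : ∀ n : L → ZMod 2, ∑ c : L → ZMod 2, e2 (FRc Phi n) *
        (if ∀ a ∈ U, c a = t a then e2 (∑ a, c a * n a) else 0) =
        if n ∈ NU U then e2 (FRc Phi n + ∑ a ∈ U, t a * n a) * 2 ^ Uᶜ.card else 0 := by
      intro n
      rw [← mul_sum, sum_ext U t n]
      split_ifs
      · rw [e2_add]; ring
      · rw [mul_zero]
    rw [sum_congr rfl fun n _ => h4 n, sum_ite_mem, univ_inter, sum_mul]
  rw [sum_congr rfl fun c _ => h1 c, ← sum_div, h3]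
  have h5 : (2 : ℂ) ^ Uᶜ.card * 2 ^ U.card = 2 ^ Fintype.card L := by
    rw [← pow_add, card_compl, Nat.sub_add_cancel (card_le_univ U)]
  rw [div_eq_div_iff h2 h2', mul_assoc, h5]

/-! ### The exponent of the sign -/

theorem FRc_add {Phi : L → L → ZMod 2} {U : Finset L}
    (hs : ∀ a ∈ U, ∀ b ∈ U, Phi a b = Phi b a) (h0 : ∀ a ∈ U, Phi a a = 0) {n e : L → ZMod 2}
    (hn : n ∈ NU U) (he : e ∈ NU U) :
    FRc Phi (n + e) = FRc Phi n + FRc Phi e + ∑ a, ∑ b, Phi b a * (e a * n b) := by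
  rw [mem_NU] at hn he
  have h1 : FRc Phi (n + e) = FRc Phi n + FRc Phi e +
      (∑ a, ∑ b, (if ord a < ord b then Phi b a * (e a * n b) else 0) +
        ∑ a, ∑ b, (if ord a < ord b then Phi b a * (n a * e b) else 0)) := by
    unfold FRc
    simp only [← sum_add_distrib]
    refine sum_congr rfl fun a _ => sum_congr rfl fun b _ => ?_
    split_ifs
    · simp only [Pi.add_apply]
      ring
    · simp
  have h2 : ∑ a, ∑ b, (if ord a < ord b then Phi b a * (n a * e b) else 0) =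
      ∑ a, ∑ b, (if ord b < ord a then Phi a b * (n b * e a) else 0) := sum_comm
  rw [h1, h2, ← sum_add_distrib]
  congr 1
  refine sum_congr rfl fun a _ => ?_
  rw [← sum_add_distrib]
  refine sum_congr rfl fun b _ => ?_
  rcases lt_trichotomy (ord a) (ord b) with h | h | h
  · rw [if_pos h, if_neg (not_lt.2 h.le), add_zero]
  · have e' := ord_inj h
    subst e'
    rw [if_neg (lt_irrefl _), if_neg (lt_irrefl _), add_zero]
    by_cases ha : a ∈ U
    · rw [h0 a ha, zero_mul]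
    · rw [hn a ha, mul_zero, mul_zero]
  · rw [if_neg (not_lt.2 h.le), if_pos h, zero_add]
    by_cases ha : a ∈ U
    · by_cases hb : b ∈ U
      · rw [hs a ha b hb, mul_comm (n b)]
      · rw [hn b hb]
        ring
    · rw [he a ha]
      ring

theorem FRc_single (Phi : L → L → ZMod 2) (a0 : L) : FRc Phi (Pi.single a0 1) = 0 := by
  unfold FRc
  refine sum_eq_zero fun a _ => sum_eq_zero fun b _ => ?_
  split_ifs with h
  · by_cases ha : a = a0
    · subst ha
      have hb : b ≠ a := by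
        rintro rfl
        exact lt_irrefl _ h
      rw [Pi.single_eq_of_ne hb]
      ring
    · rw [Pi.single_eq_of_ne ha]
      ring
  · rfl

theorem FRc_lin {Phi : L → L → ZMod 2} {U : Finset L} {g : L → ZMod 2}
    (hg : ∀ a ∈ U, ∀ b ∈ U, Phi b a = g a + g b) {n : L → ZMod 2} (hn : n ∈ NU U) :
    FRc Phi n = (∑ a, n a + 1) * ∑ a, g a * n a := by
  rw [mem_NU] at hn
  have h1 : FRc Phi n = ∑ a, ∑ b, (if ord a < ord b then g a * (n a * n b) else 0) +
      ∑ a, ∑ b, (if ord a < ord b then g b * (n a * n b) else 0) := by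
    unfold FRc
    simp only [← sum_add_distrib]
    refine sum_congr rfl fun a _ => sum_congr rfl fun b _ => ?_
    split_ifs
    · by_cases ha : a ∈ U
      · by_cases hb : b ∈ U
        · rw [hg a ha b hb]
          ring
        · rw [hn b hb]
          ring
      · rw [hn a ha]
        ring
    · simp
  have h2 : ∑ a, ∑ b, (if ord a < ord b then g b * (n a * n b) else 0) =
      ∑ a, ∑ b, (if ord b < ord a then g a * (n b * n a) else 0) := sum_comm
  have hsq : ∀ x : ZMod 2, x * x = x := by decide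
  have h3 : ∀ a, ∑ b, ((if ord a < ord b then g a * (n a * n b) else 0) +
      (if ord b < ord a then g a * (n b * n a) else 0)) =
      g a * n a * ∑ b, n b + g a * n a := by
    intro a
    have h4 : ∀ b, (if ord a < ord b then g a * (n a * n b) else 0) +
        (if ord b < ord a then g a * (n b * n a) else 0) =
        g a * n a * n b + if b = a then g a * n a else 0 := by
      intro b
      rcases lt_trichotomy (ord a) (ord b) with h | h | h
      · have hne : b ≠ a := by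
          rintro rfl
          exact lt_irrefl _ h
        rw [if_pos h, if_neg (not_lt.2 h.le), if_neg hne]
        ring
      · have e' := ord_inj h
        subst e'
        rw [if_neg (lt_irrefl _), if_pos rfl, mul_assoc, hsq, z2_add_self (g a * n a), add_zero]
      · have hne : b ≠ a := by
          rintro rfl
          exact lt_irrefl _ h
        rw [if_neg (not_lt.2 h.le), if_pos h, if_neg hne]
        ring
    rw [sum_congr rfl fun b _ => h4 b, sum_add_distrib, ← mul_sum, sum_ite_eq' univ a,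
      if_pos (mem_univ _)]
  rw [h1, h2, ← sum_add_distrib]
  simp only [← sum_add_distrib, h3]
  rw [sum_add_distrib, ← sum_mul]
  ring

theorem single_mem {U : Finset L} {l : L} (hl : l ∈ U) :
    (Pi.single l 1 : L → ZMod 2) ∈ NU U := by
  rw [mem_NU]
  intro a ha
  rw [Pi.single_eq_of_ne]
  rintro rfl
  exact ha hl

theorem FRc_add_single {Phi : L → L → ZMod 2} {U : Finset L}
    (hs : ∀ a ∈ U, ∀ b ∈ U, Phi a b = Phi b a) (h0 : ∀ a ∈ U, Phi a a = 0) {n : L → ZMod 2}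
    (hn : n ∈ NU U) {l : L} (hl : l ∈ U) :
    FRc Phi (n + Pi.single l 1) = FRc Phi n + ∑ b, Phi b l * n b := by
  rw [FRc_add hs h0 hn (single_mem hl), FRc_single, add_zero]
  congr 1
  rw [sum_eq_single l]
  · refine sum_congr rfl fun b _ => ?_
    rw [Pi.single_eq_same, one_mul]
  · intro a _ ha
    refine sum_eq_zero fun b _ => ?_
    rw [Pi.single_eq_of_ne ha, zero_mul, mul_zero]
  · intro h
    exact absurd (mem_univ _) h

open Classical in
/-- The sum of the characters with support in `U`. -/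
theorem NU_lin (U : Finset L) (σ : L → ZMod 2) :
    ∑ n ∈ NU U, e2 (∑ a ∈ U, σ a * n a) = if ∀ a ∈ U, σ a = 0 then 2 ^ U.card else 0 := by
  let g : L → ZMod 2 → ℂ := fun a x => if a ∈ U then e2 (x * σ a) else if x = 0 then 1 else 0
  have h1 : ∀ n : L → ZMod 2, (if n ∈ NU U then e2 (∑ a ∈ U, σ a * n a) else 0) =
      ∏ a, g a (n a) := by
    intro n
    have h2 : ∏ a, g a (n a) = (∏ a ∈ U, e2 (n a * σ a)) * ∏ a ∈ Uᶜ, if n a = 0 then 1 else 0 :=
      prod_split U _ _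
    rw [h2]
    split_ifs with h
    · rw [mem_NU] at h
      rw [prod_congr rfl fun a ha => if_pos (h a (mem_compl.1 ha)), prod_const_one, mul_one, e2_sum]
      exact prod_congr rfl fun a _ => by rw [mul_comm]
    · rw [mem_NU] at h
      push Not at h
      obtain ⟨a, ha, hne⟩ := h
      rw [prod_eq_zero (mem_compl.2 ha) (if_neg hne), mul_zero]
  have h3 : ∀ a, ∑ x, g a x = if a ∈ U then (if σ a = 0 then 2 else 0) else 1 := by
    intro a
    by_cases ha : a ∈ U
    · rw [if_pos ha]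
      have h4 : ∀ x, g a x = e2 (x * σ a) := fun x => if_pos ha
      rw [sum_congr rfl fun x _ => h4 x, sum_tau]
    · rw [if_neg ha]
      have h4 : ∀ x, g a x = if x = 0 then 1 else 0 := fun x => if_neg ha
      rw [sum_congr rfl fun x _ => h4 x, sum_ite_eq' univ (0 : ZMod 2), if_pos (mem_univ _)]
  have h5 : ∑ n ∈ NU U, e2 (∑ a ∈ U, σ a * n a) = ∑ n : L → ZMod 2, ∏ a, g a (n a) := by
    rw [← sum_congr rfl fun n _ => h1 n, sum_ite_mem, univ_inter]
  have h6 : ∑ n : L → ZMod 2, ∏ a, g a (n a) = ∏ a, ∑ x, g a x := by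
    rw [prod_univ_sum, Fintype.piFinset_univ]
  rw [h5, h6, prod_congr rfl fun a _ => h3 a, prod_split, prod_const_one, mul_one]
  split_ifs with h
  · rw [prod_congr rfl fun a ha => if_pos (h a ha), prod_const]
  · push Not at h
    obtain ⟨a, ha, hne⟩ := h
    exact prod_eq_zero ha (if_neg hne)

end Gen

section Lab

variable {k : ℕ}

/-- The half of the polar form is zero on `W`. -/
def bb0 (W : Finset (Lab2 k)) : Prop := ∀ h ∈ W, ∀ h' ∈ W, h'.2 ⬝ᵥ h.1 = 0

theorem UsN_eq : UsN k = MU k := by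
  ext U
  rw [mem_UsN, mem_MU]

theorem mx_sh {U : Finset (Lab2 k)} (hU : U ∈ UsN k) {u : Lab2 k} (hu : u ∈ U) :
    Mx2 (sh2 u U) := by
  rw [mem_UsN] at hU
  exact ⟨Unl_sh2 hU.1, by rw [card_sh2, hU.2], by rw [mem_sh2, zero_add]; exact hu⟩

theorem mem_sh' {U : Finset (Lab2 k)} {u a : Lab2 k} (ha : a ∈ U) : a + u ∈ sh2 u U := by
  rw [mem_sh2, l2_add_add]
  exact ha

theorem two0 : (2 : ZMod 2) = 0 := by decide

theorem eq_of_add {x y : ZMod 2} (h : x + y = 0) : x = y := by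
  linear_combination h - y * two0

theorem PhiQ_sh {U : Finset (Lab2 k)} (hU : U ∈ UsN k) {u a b : Lab2 k} (hu : u ∈ U)
    (hb : b ∈ U) : PhiQ b a = u.2 ⬝ᵥ (a.1 + u.1) + u.2 ⬝ᵥ (b.1 + u.1) +
      (b + u).2 ⬝ᵥ (a + u).1 := by
  have hW := mx_sh hU hu
  have q := hW.unl.Q hW.zero (mem_sh' (u := u) hb)
  rw [Q2, dotProduct_comm] at q
  simp only [PhiQ, Prod.fst_add, Prod.snd_add, add_dotProduct, dotProduct_add] at q ⊢
  linear_combination q - (u.2 ⬝ᵥ a.1 + 2 * (u.2 ⬝ᵥ u.1) + u.2 ⬝ᵥ b.1 + b.2 ⬝ᵥ u.1) * two0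

theorem PhiQ_symm {U : Finset (Lab2 k)} (hU : U ∈ UsN k) {a b : Lab2 k} (ha : a ∈ U)
    (hb : b ∈ U) : PhiQ a b = PhiQ b a := by
  refine eq_of_add ?_
  rw [PhiQ_add]
  exact (mem_UsN.1 hU).1 a ha b hb

/-- The contribution of a set on which the half of the polar form is not zero. -/
theorem core_ne {U : Finset (Lab2 k)} (hU : U ∈ UsN k) {u : Lab2 k} (hu : u ∈ U)
    (s : Lab2 k → ZMod 2)
    (hs : ∀ h1 ∈ sh2 u U, ∀ h2 ∈ sh2 u U, s u + s (h1 + u) + s (h2 + u) + s (h1 + h2 + u) = 0)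
    (hbb : ¬ bb0 (sh2 u U)) (τ : ZMod 2) :
    ∑ n ∈ NU U, e2 (FRc PhiQ n + ∑ a ∈ U, (τ + s a) * n a) = 0 := by
  have hW := mx_sh hU hu
  rw [bb0] at hbb
  push Not at hbb
  obtain ⟨h1, hh1, h2, hh2, hne⟩ := hbb
  have hone := z2_ne hne
  have hh3 := hW.add_mem hh1 hh2
  have m1 := mem_sh2.1 hh1
  have m2 := mem_sh2.1 hh2
  have m3 := mem_sh2.1 hh3
  have q1 := hW.unl.Q hW.zero hh1
  rw [Q2, dotProduct_comm] at q1
  have hsym : ∀ a ∈ U, ∀ b ∈ U, PhiQ a b = PhiQ b a := fun a ha b hb => PhiQ_symm hU ha hb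
  have hdia : ∀ a ∈ U, PhiQ a a = 0 := fun a _ => PhiQ_self a
  let d0 : Lab2 k → ZMod 2 := Pi.single u 1
  let d1 : Lab2 k → ZMod 2 := Pi.single (h1 + u) 1
  let d2 : Lab2 k → ZMod 2 := Pi.single (h2 + u) 1
  let d3 : Lab2 k → ZMod 2 := Pi.single (h1 + h2 + u) 1
  have e0 : d0 ∈ NU U := single_mem hu
  have e1 : d1 ∈ NU U := single_mem m1
  have e2' : d2 ∈ NU U := single_mem m2
  have e3 : d3 ∈ NU U := single_mem m3
  refine NU_zero (fun n => FRc PhiQ n + ∑ a ∈ U, (τ + s a) * n a) (d0 + d1 + d2 + d3)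
    (NU_add (NU_add (NU_add e0 e1) e2') e3) fun n hn => ?_
  have key : ∀ (f : Lab2 k → ZMod 2) (l : Lab2 k), ∑ b, f b * (Pi.single l 1 : Lab2 k → ZMod 2) b =
      f l := by
    intro f l
    rw [sum_eq_single l]
    · rw [Pi.single_eq_same, mul_one]
    · intro b _ hb
      rw [Pi.single_eq_of_ne hb, mul_zero]
    · intro h
      exact absurd (mem_univ _) h
  have keyU : ∀ (f : Lab2 k → ZMod 2) (l : Lab2 k), l ∈ U →
      ∑ b ∈ U, f b * (Pi.single l 1 : Lab2 k → ZMod 2) b = f l := by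
    intro f l hl
    rw [sum_eq_single l]
    · rw [Pi.single_eq_same, mul_one]
    · intro b _ hb
      rw [Pi.single_eq_of_ne hb, mul_zero]
    · intro h
      exact absurd hl h
  have hF : FRc PhiQ (n + (d0 + d1 + d2 + d3)) = FRc PhiQ n + 1 := by
    have a0 : n + (d0 + d1 + d2 + d3) = n + d0 + d1 + d2 + d3 := by abel
    have n0 := NU_add hn e0
    have n1 := NU_add n0 e1
    have n2 := NU_add n1 e2'
    rw [a0, FRc_add_single hsym hdia n2 m3, FRc_add_single hsym hdia n1 m2,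
      FRc_add_single hsym hdia n0 m1, FRc_add_single hsym hdia hn hu]
    simp only [Pi.add_apply, mul_add, sum_add_distrib, d0, d1, d2, key]
    have h4 : ∀ b : Lab2 k, PhiQ b u + PhiQ b (h1 + u) + PhiQ b (h2 + u) + PhiQ b (h1 + h2 + u) =
        0 := by
      intro b
      simp only [PhiQ, Prod.fst_add, dotProduct_add]
      linear_combination (2 * (b.2 ⬝ᵥ b.1) + 2 * (b.2 ⬝ᵥ u.1) + b.2 ⬝ᵥ h1.1 +
        b.2 ⬝ᵥ h2.1) * two0
    have h5 : ∑ b, PhiQ b u * n b + ∑ b, PhiQ b (h1 + u) * n b + ∑ b, PhiQ b (h2 + u) * n b +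
        ∑ b, PhiQ b (h1 + h2 + u) * n b = 0 := by
      rw [← sum_add_distrib, ← sum_add_distrib, ← sum_add_distrib]
      refine sum_eq_zero fun b _ => ?_
      rw [← add_mul, ← add_mul, ← add_mul, h4 b, zero_mul]
    have h6 : PhiQ u (h1 + u) + (PhiQ u (h2 + u) + PhiQ (h1 + u) (h2 + u)) +
        (PhiQ u (h1 + h2 + u) + PhiQ (h1 + u) (h1 + h2 + u) + PhiQ (h2 + u) (h1 + h2 + u)) = 1 := by
      simp only [PhiQ, Prod.fst_add, Prod.snd_add, add_dotProduct, dotProduct_add]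
      rw [← hone]
      linear_combination q1 + (6 * (u.2 ⬝ᵥ u.1) + 3 * (u.2 ⬝ᵥ h1.1) + 3 * (u.2 ⬝ᵥ h2.1) +
        h1.2 ⬝ᵥ h1.1 + 2 * (h1.2 ⬝ᵥ u.1) + h1.2 ⬝ᵥ h2.1 + h2.2 ⬝ᵥ h2.1 + h2.2 ⬝ᵥ u.1) * two0
    linear_combination h5 + h6
  have hL : ∑ a ∈ U, (τ + s a) * (n + (d0 + d1 + d2 + d3)) a = ∑ a ∈ U, (τ + s a) * n a := by
    simp only [Pi.add_apply, mul_add, sum_add_distrib, d0, d1, d2, d3]
    rw [keyU _ _ hu, keyU _ _ m1, keyU _ _ m2, keyU _ _ m3]
    have h5 := hs h1 hh1 h2 hh2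
    linear_combination h5 + 2 * τ * two0
  show FRc PhiQ (n + (d0 + d1 + d2 + d3)) + ∑ a ∈ U, (τ + s a) * (n + (d0 + d1 + d2 + d3)) a =
    FRc PhiQ n + ∑ a ∈ U, (τ + s a) * n a + 1
  rw [hF, hL]
  ring

open Classical in
/-- The contribution of a set on which the half of the polar form is zero. -/
theorem core_eq {U : Finset (Lab2 k)} (hU : U ∈ UsN k) {u : Lab2 k} (hu : u ∈ U)
    (s : Lab2 k → ZMod 2) (su : s u = 0) (hbb : bb0 (sh2 u U)) (A : ZMod 2) :
    ∑ τ : ZMod 2, e2 (τ * A) * ∑ n ∈ NU U, e2 (FRc PhiQ n + ∑ a ∈ U, (τ + s a) * n a) =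
      if ∀ l ∈ U, s l = (1 + A) * (u.2 ⬝ᵥ (l.1 + u.1)) then 2 ^ U.card else 0 := by
  let g : Lab2 k → ZMod 2 := fun a => u.2 ⬝ᵥ (a.1 + u.1)
  have hg : ∀ a ∈ U, ∀ b ∈ U, PhiQ b a = g a + g b := by
    intro a ha b hb
    rw [PhiQ_sh hU hu hb, hbb _ (mem_sh' ha) _ (mem_sh' hb), add_zero]
  have gu : g u = 0 := by
    show u.2 ⬝ᵥ (u.1 + u.1) = 0
    rw [fun_add_self, dotProduct_zero]
  have h1 : ∀ n ∈ NU U, ∑ τ : ZMod 2, e2 (τ * A) * e2 (FRc PhiQ n + ∑ a ∈ U, (τ + s a) * n a) =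
      ∑ τ : ZMod 2, e2 (τ * A) * e2 (∑ a ∈ U, (τ + s a + (1 + A) * g a) * n a) := by
    intro n hn
    have hN : ∑ a, n a = ∑ a ∈ U, n a := sum_NU hn (fun _ x => x) fun _ => rfl
    have hG : ∑ a, g a * n a = ∑ a ∈ U, g a * n a :=
      sum_NU hn (fun a x => g a * x) fun _ => mul_zero _
    have a1 : ∀ τ : ZMod 2, e2 (τ * A) * e2 (FRc PhiQ n + ∑ a ∈ U, (τ + s a) * n a) =
        e2 (FRc PhiQ n + ∑ a ∈ U, s a * n a) * e2 (τ * (A + ∑ a ∈ U, n a)) := by
      intro τ
      rw [← e2_add, ← e2_add]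
      congr 1
      simp only [add_mul, sum_add_distrib, mul_add, mul_sum]
      ring
    have a2 : ∀ τ : ZMod 2, e2 (τ * A) * e2 (∑ a ∈ U, (τ + s a + (1 + A) * g a) * n a) =
        e2 ((1 + A) * ∑ a ∈ U, g a * n a + ∑ a ∈ U, s a * n a) *
          e2 (τ * (A + ∑ a ∈ U, n a)) := by
      intro τ
      rw [← e2_add, ← e2_add]
      congr 1
      have a3 : ∑ a ∈ U, (1 + A) * g a * n a = (1 + A) * ∑ a ∈ U, g a * n a := by
        rw [mul_sum]
        exact sum_congr rfl fun a _ => by ring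
      simp only [add_mul _ _ (n _), sum_add_distrib, a3]
      rw [← mul_sum]
      ring
    rw [sum_congr rfl fun τ _ => a1 τ, sum_congr rfl fun τ _ => a2 τ, ← mul_sum, ← mul_sum,
      sum_tau]
    split_ifs with hz
    · have hz' : ∑ a ∈ U, n a = A := (eq_of_add hz).symm
      rw [FRc_lin hg hn, hN, hz', hG, add_comm A 1]
    · rw [mul_zero, mul_zero]
  have h2 : ∑ τ : ZMod 2, e2 (τ * A) * ∑ n ∈ NU U, e2 (FRc PhiQ n + ∑ a ∈ U, (τ + s a) * n a) =
      ∑ τ : ZMod 2, e2 (τ * A) * ∑ n ∈ NU U,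
        e2 (∑ a ∈ U, (τ + s a + (1 + A) * g a) * n a) := by
    simp only [mul_sum]
    rw [sum_comm, sum_comm (s := (univ : Finset (ZMod 2)))]
    refine sum_congr rfl fun n hn => ?_
    simpa only [mul_sum] using h1 n hn
  rw [h2, sum_z2, NU_lin, NU_lin, zero_mul, e2_zero, one_mul]
  have h3 : ¬ ∀ a ∈ U, (1 : ZMod 2) + s a + (1 + A) * g a = 0 := by
    intro h
    have h4 := h u hu
    rw [su, gu, mul_zero, add_zero, add_zero] at h4
    exact one_ne_zero h4
  rw [if_neg h3, mul_zero, add_zero]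
  refine if_congr ⟨fun h l hl => ?_, fun h l hl => ?_⟩ rfl rfl
  · have h4 := h l hl
    rw [zero_add] at h4
    exact eq_of_add h4
  · rw [zero_add, h l hl]
    exact z2_add_self _

open Classical in
/-- The contribution of a maximal unlinked set. -/
theorem core {U : Finset (Lab2 k)} (hU : U ∈ UsN k) {u : Lab2 k} (hu : u ∈ U)
    (s : Lab2 k → ZMod 2) (su : s u = 0)
    (hs : ∀ h1 ∈ sh2 u U, ∀ h2 ∈ sh2 u U, s u + s (h1 + u) + s (h2 + u) + s (h1 + h2 + u) = 0)
    (A : ZMod 2) :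
    ∑ τ : ZMod 2, e2 (τ * A) *
      ((∑ n ∈ NU U, e2 (FRc PhiQ n + ∑ a ∈ U, (τ + s a) * n a)) / 2 ^ U.card) =
      if bb0 (sh2 u U) ∧ ∀ l ∈ U, s l = (1 + A) * (u.2 ⬝ᵥ (l.1 + u.1)) then 1 else 0 := by
  have h2 : (2 : ℂ) ^ U.card ≠ 0 := pow_ne_zero _ (by norm_num)
  have h1 : ∀ τ : ZMod 2, e2 (τ * A) *
      ((∑ n ∈ NU U, e2 (FRc PhiQ n + ∑ a ∈ U, (τ + s a) * n a)) / 2 ^ U.card) =
      (e2 (τ * A) * ∑ n ∈ NU U, e2 (FRc PhiQ n + ∑ a ∈ U, (τ + s a) * n a)) / 2 ^ U.card :=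
    fun τ => (mul_div_assoc _ _ _).symm
  rw [sum_congr rfl fun τ _ => h1 τ, ← sum_div]
  by_cases hbb : bb0 (sh2 u U)
  · rw [core_eq hU hu s su hbb A]
    split_ifs with h3 h4 h4
    · exact div_self h2
    · exact absurd ⟨hbb, h3⟩ h4
    · exact absurd h4.2 h3
    · exact zero_div _
  · rw [if_neg fun h => hbb h.1]
    simp only [core_ne hU hu s hs hbb, mul_zero, sum_const_zero, zero_div]

variable {κ : Type} [Fintype κ] [DecidableEq κ]

open Classical in
/-- The contribution of a maximal unlinked set to the mean value in a class. -/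
theorem mainU {U : Finset (Lab2 k)} (hU : U ∈ UsN k) {u : Lab2 k} (hu : u ∈ U)
    {w : κ → ZMod 2} (hw : w ≠ 0) (γ : κ → ZMod 2) (c : Lab2 k → κ → ZMod 2)
    (hc : ∀ h1 ∈ sh2 u U, ∀ h2 ∈ sh2 u U, c u + c (h1 + u) + c (h2 + u) + c (h1 + h2 + u) = 0) :
    ∑ c0 : κ → ZMod 2, e2 (c0 ⬝ᵥ γ) * ∑ ce : Lab2 k → ZMod 2,
      Fh PhiQ ce * (if ∀ l ∈ U, c0 + c l + ce l • w = 0 then 1 else 0) =
      if bb0 (sh2 u U) ∧ ∀ l ∈ U, c l + c u = ((1 + w ⬝ᵥ γ) * (u.2 ⬝ᵥ (l.1 + u.1))) • w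
        then e2 (c u ⬝ᵥ γ) else 0 := by
  obtain ⟨j0, hj0⟩ := Function.ne_iff.1 hw
  have wj : w j0 = 1 := z2_ne hj0
  have wsm : ∀ x y : ZMod 2, x • w = y • w → x = y := by
    intro x y h
    have h1 := congrFun h j0
    rw [Pi.smul_apply, Pi.smul_apply, wj] at h1
    simpa using h1
  have feq : ∀ x y : κ → ZMod 2, x + y = 0 → x = y := fun x y h =>
    funext fun j => eq_of_add (congrFun h j)
  -- the sum over the characters
  have h1 : ∀ ce : Lab2 k → ZMod 2, ∑ c0 : κ → ZMod 2, e2 (c0 ⬝ᵥ γ) *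
      (Fh PhiQ ce * (if ∀ l ∈ U, c0 + c l + ce l • w = 0 then 1 else 0)) =
      if ∀ l ∈ U, c l + c u = (ce l + ce u) • w then
        Fh PhiQ ce * e2 ((c u + ce u • w) ⬝ᵥ γ) else 0 := by
    intro ce
    rw [sum_eq_single (c u + ce u • w)]
    · have h2 : (∀ l ∈ U, c u + ce u • w + c l + ce l • w = 0) ↔
          ∀ l ∈ U, c l + c u = (ce l + ce u) • w := by
        refine forall_congr' fun l => forall_congr' fun _ => ?_
        have h3 : c u + ce u • w + c l + ce l • w = (c l + c u) + (ce l + ce u) • w := by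
          rw [add_smul]
          abel
        rw [h3]
        constructor
        · exact feq _ _
        · intro h
          rw [h]
          exact fun_add_self _
      rw [if_congr h2 rfl rfl]
      split_ifs
      · ring
      · ring
    · intro c0 _ hne
      rw [if_neg, mul_zero, mul_zero]
      intro h
      refine hne (feq _ _ ?_)
      rw [← h u hu]
      abel
    · intro h
      exact absurd (mem_univ _) h
  have h2 : ∑ c0 : κ → ZMod 2, e2 (c0 ⬝ᵥ γ) * ∑ ce : Lab2 k → ZMod 2,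
      Fh PhiQ ce * (if ∀ l ∈ U, c0 + c l + ce l • w = 0 then 1 else 0) =
      ∑ ce : Lab2 k → ZMod 2, if ∀ l ∈ U, c l + c u = (ce l + ce u) • w then
        Fh PhiQ ce * e2 ((c u + ce u • w) ⬝ᵥ γ) else 0 := by
    rw [← sum_congr rfl fun ce _ => h1 ce, sum_comm]
    exact sum_congr rfl fun c0 _ => mul_sum _ _ _
  rw [h2]
  by_cases hex : ∃ s : Lab2 k → ZMod 2, ∀ l ∈ U, c l + c u = s l • w
  · obtain ⟨s, hsl⟩ := hex
    have su : s u = 0 := by
      refine wsm _ _ ?_
      rw [← hsl u hu, zero_smul]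
      exact fun_add_self _
    have hs : ∀ h1 ∈ sh2 u U, ∀ h2 ∈ sh2 u U,
        s u + s (h1 + u) + s (h2 + u) + s (h1 + h2 + u) = 0 := by
      intro a1 m1 a2 m2
      have m3 := (mx_sh hU hu).add_mem m1 m2
      refine wsm _ _ ?_
      rw [zero_smul, add_smul, add_smul, add_smul, ← hsl _ hu, ← hsl _ (mem_sh2.1 m1),
        ← hsl _ (mem_sh2.1 m2), ← hsl _ (mem_sh2.1 m3)]
      have h3 := hc a1 m1 a2 m2
      have h4 := fun_add_self (c u)
      have h5 : c u + c u + (c (a1 + u) + c u) + (c (a2 + u) + c u) + (c (a1 + a2 + u) + c u) =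
          (c u + c (a1 + u) + c (a2 + u) + c (a1 + a2 + u)) + (c u + c u) + (c u + c u) := by abel
      rw [h5, h3, h4, add_zero, add_zero]
    have h3 : ∀ ce : Lab2 k → ZMod 2, (if ∀ l ∈ U, c l + c u = (ce l + ce u) • w then
        Fh PhiQ ce * e2 ((c u + ce u • w) ⬝ᵥ γ) else 0) =
        e2 (c u ⬝ᵥ γ) * ∑ τ : ZMod 2, e2 (τ * (w ⬝ᵥ γ)) *
          (if ∀ l ∈ U, ce l = τ + s l then Fh PhiQ ce else 0) := by
      intro ce
      have h4 : (∀ l ∈ U, c l + c u = (ce l + ce u) • w) ↔ ∀ l ∈ U, ce l = ce u + s l := by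
        refine forall_congr' fun l => forall_congr' fun hl => ?_
        rw [hsl l hl]
        constructor
        · intro h
          have h5 := wsm _ _ h
          rw [h5]
          linear_combination -(ce u) * two0
        · intro h
          congr 1
          rw [h]
          linear_combination -(ce u) * two0
      rw [if_congr h4 rfl rfl, sum_eq_single (ce u)]
      · split_ifs
        · rw [add_dotProduct, smul_dotProduct, smul_eq_mul, e2_add]
          ring
        · rw [mul_zero, mul_zero]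
      · intro τ _ hne
        rw [if_neg, mul_zero]
        intro h
        refine hne ?_
        rw [h u hu, su, add_zero]
      · intro h
        exact absurd (mem_univ _) h
    have h4 : ∑ ce : Lab2 k → ZMod 2, e2 (c u ⬝ᵥ γ) * ∑ τ : ZMod 2, e2 (τ * (w ⬝ᵥ γ)) *
          (if ∀ l ∈ U, ce l = τ + s l then Fh PhiQ ce else 0) =
        e2 (c u ⬝ᵥ γ) * ∑ τ : ZMod 2, e2 (τ * (w ⬝ᵥ γ)) *
          ((∑ n ∈ NU U, e2 (FRc PhiQ n + ∑ a ∈ U, (τ + s a) * n a)) / 2 ^ U.card) := by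
      rw [← mul_sum, sum_comm]
      congr 1
      refine sum_congr rfl fun τ _ => ?_
      rw [← mul_sum, Fh_part PhiQ U fun l => τ + s l]
    rw [sum_congr rfl fun ce _ => h3 ce, h4, core hU hu s su hs]
    have h5 : (∀ l ∈ U, s l = (1 + w ⬝ᵥ γ) * (u.2 ⬝ᵥ (l.1 + u.1))) ↔
        ∀ l ∈ U, c l + c u = ((1 + w ⬝ᵥ γ) * (u.2 ⬝ᵥ (l.1 + u.1))) • w := by
      refine forall_congr' fun l => forall_congr' fun hl => ?_
      rw [hsl l hl]
      exact ⟨fun h => by rw [h], wsm _ _⟩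
    rw [if_congr (and_congr_right fun _ => h5) rfl rfl]
    split_ifs
    · rw [mul_one]
    · rw [mul_zero]
  · rw [if_neg fun h => hex ⟨_, h.2⟩]
    refine sum_eq_zero fun ce _ => if_neg fun h => hex ⟨fun l => ce l + ce u, h⟩

end Lab

end

end Pool.Agent.Lib.MP_1a91b9_ntV.DS
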