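import Pool.Agent.Lib.MP_1a91b9_ntV.DS.MomV
import Mathlib.LinearAlgebra.Dual.Lemmas
import Mathlib.FieldTheory.Finiteness

/-!
# MP_1a91b9_nt (K = ℚ(√-7)), part D: the number of the subspaces of `F2^k`
-/

set_option autoImplicit false

namespace Pool.Agent.Lib.MP_1a91b9_ntV.DS

open Finset Pool.Agent.Lib.MP_1a91b9_ntQ.Da

noncomputable section

/-- The vectors over `F2`. -/
abbrev V2 (k : ℕ) : Type := Fin k → ZMod 2

/-- The subspaces. -/
abbrev Sb (k : ℕ) : Type := Submodule (ZMod 2) (V2 k)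

instance instFintypeSb (k : ℕ) : Fintype (Sb k) := Fintype.ofFinite _

instance instDecEqSb (k : ℕ) : DecidableEq (Sb k) := Classical.decEq _

/-- The projection along the first coordinate. -/
def prj (k : ℕ) : V2 (k + 1) →ₗ[ZMod 2] V2 k where
  toFun f i := f i.succ
  map_add' _ _ := rfl
  map_smul' _ _ := rfl

theorem prj_apply {k : ℕ} (f : V2 (k + 1)) (i : Fin k) : prj k f i = f i.succ := rfl

theorem prj_cons {k : ℕ} (t : ZMod 2) (v : V2 k) : prj k (Fin.cons t v) = v := by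
  funext i
  rw [prj_apply, Fin.cons_succ]

theorem eq_cons {k : ℕ} (f : V2 (k + 1)) : f = Fin.cons (f 0) (prj k f) := by
  funext i
  refine Fin.cases ?_ (fun i => ?_) i
  · rw [Fin.cons_zero]
  · rw [Fin.cons_succ, prj_apply]

/-- The graph of a linear form on `Y`. -/
def gph {k : ℕ} (Y : Sb k) (φ : Module.Dual (ZMod 2) Y) : Sb (k + 1) where
  carrier := {f | ∃ h : prj k f ∈ Y, f 0 = φ ⟨prj k f, h⟩}
  add_mem' := by
    rintro f g ⟨h1, h2⟩ ⟨h3, h4⟩
    refine ⟨by rw [map_add]; exact Y.add_mem h1 h3, ?_⟩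
    have e : (⟨prj k (f + g), by rw [map_add]; exact Y.add_mem h1 h3⟩ : Y) =
        ⟨prj k f, h1⟩ + ⟨prj k g, h3⟩ := Subtype.ext (map_add _ _ _)
    rw [Pi.add_apply, h2, h4, e, map_add]
  zero_mem' := by
    refine ⟨by rw [map_zero]; exact Y.zero_mem, ?_⟩
    have e : (⟨prj k 0, by rw [map_zero]; exact Y.zero_mem⟩ : Y) = 0 := Subtype.ext (map_zero _)
    rw [e, map_zero, Pi.zero_apply]
  smul_mem' := by
    rintro c f ⟨h1, h2⟩
    refine ⟨by rw [map_smul]; exact Y.smul_mem c h1, ?_⟩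
    have e : (⟨prj k (c • f), by rw [map_smul]; exact Y.smul_mem c h1⟩ : Y) =
        c • ⟨prj k f, h1⟩ := Subtype.ext (map_smul _ _ _)
    rw [Pi.smul_apply, h2, e, map_smul]

theorem mem_gph {k : ℕ} {Y : Sb k} {φ : Module.Dual (ZMod 2) Y} {f : V2 (k + 1)} :
    f ∈ gph Y φ ↔ ∃ h : prj k f ∈ Y, f 0 = φ ⟨prj k f, h⟩ := Iff.rfl

theorem cons_mem_gph {k : ℕ} {Y : Sb k} {φ : Module.Dual (ZMod 2) Y} (y : Y) :
    (Fin.cons (φ y) y.1 : V2 (k + 1)) ∈ gph Y φ := by
  refine mem_gph.2 ⟨by rw [prj_cons]; exact y.2, ?_⟩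
  rw [Fin.cons_zero]
  exact congrArg φ (Subtype.ext (prj_cons _ _).symm)

theorem map_gph {k : ℕ} (Y : Sb k) (φ : Module.Dual (ZMod 2) Y) :
    (gph Y φ).map (prj k) = Y := by
  ext v
  rw [Submodule.mem_map]
  constructor
  · rintro ⟨f, ⟨h, _⟩, rfl⟩
    exact h
  · intro h
    exact ⟨_, cons_mem_gph ⟨v, h⟩, prj_cons _ _⟩

theorem gph_inj {k : ℕ} (Y : Sb k) : Function.Injective (gph Y) := by
  intro φ φ' h
  ext y
  have h1 : (Fin.cons (φ y) y.1 : V2 (k + 1)) ∈ gph Y φ' := h ▸ cons_mem_gph y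
  obtain ⟨h2, h3⟩ := mem_gph.1 h1
  rw [Fin.cons_zero] at h3
  rw [h3]
  exact congrArg φ' (Subtype.ext (prj_cons _ _))

/-- The first unit vector. -/
def e0 (k : ℕ) : V2 (k + 1) := Fin.cons 1 0

theorem prj_e0 (k : ℕ) : prj k (e0 k) = 0 := prj_cons _ _

theorem ker_prj {k : ℕ} {f : V2 (k + 1)} (h : prj k f = 0) : f = 0 ∨ f = e0 k := by
  have h1 := eq_cons f
  rw [h] at h1
  rcases z2 (f 0) with h2 | h2
  · left
    rw [h1, h2]
    funext i
    refine Fin.cases ?_ (fun i => ?_) i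
    · rw [Fin.cons_zero, Pi.zero_apply]
    · rw [Fin.cons_succ, Pi.zero_apply, Pi.zero_apply]
  · right
    rw [h1, h2]
    rfl

theorem e0_notMem_gph {k : ℕ} (Y : Sb k) (φ : Module.Dual (ZMod 2) Y) : e0 k ∉ gph Y φ := by
  rintro ⟨h1, h2⟩
  have e : (⟨prj k (e0 k), h1⟩ : Y) = 0 := Subtype.ext (prj_e0 k)
  rw [e, map_zero] at h2
  exact one_ne_zero h2

theorem inj_of_notMem {k : ℕ} {K : Sb (k + 1)} (h : e0 k ∉ K) :
    Function.Injective ((prj k).domRestrict K) := by
  rw [← LinearMap.ker_eq_bot, LinearMap.ker_eq_bot']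
  intro f hf
  rcases ker_prj (f := f.1) hf with h1 | h1
  · exact Subtype.ext h1
  · exact absurd (h1 ▸ f.2) h

theorem exists_gph {k : ℕ} {K : Sb (k + 1)} (h : e0 k ∉ K) :
    ∃ φ, gph (K.map (prj k)) φ = K := by
  have hinj := inj_of_notMem h
  have hr : LinearMap.range ((prj k).domRestrict K) = K.map (prj k) := by
    rw [LinearMap.range_domRestrict]
  let ev : V2 (k + 1) →ₗ[ZMod 2] ZMod 2 := LinearMap.proj 0
  let E := LinearEquiv.ofInjective ((prj k).domRestrict K) hinj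
  let φ0 : Module.Dual (ZMod 2) (LinearMap.range ((prj k).domRestrict K)) :=
    (ev.comp K.subtype).comp E.symm.toLinearMap
  have hφ0 : ∀ f : K, φ0 (E f) = f.1 0 := by
    intro f
    show ev (K.subtype (E.symm (E f))) = f.1 0
    rw [LinearEquiv.symm_apply_apply]
    rfl
  rw [← hr]
  refine ⟨φ0, ?_⟩
  ext f
  rw [mem_gph]
  constructor
  · rintro ⟨⟨g, hg⟩, h2⟩
    have h3 : E g = ⟨prj k f, ⟨g, hg⟩⟩ := Subtype.ext hg
    rw [← h3, hφ0] at h2
    have h4 : f = g.1 := by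
      rw [eq_cons f, eq_cons g.1, h2]
      congr 1
      exact hg.symm
    rw [h4]
    exact g.2
  · intro hf
    refine ⟨⟨⟨f, hf⟩, rfl⟩, ?_⟩
    exact (hφ0 ⟨f, hf⟩).symm

instance finite_dual {k : ℕ} (Y : Sb k) : Finite (Module.Dual (ZMod 2) Y) :=
  Finite.of_injective (fun φ : Module.Dual (ZMod 2) Y => (φ : Y → ZMod 2)) DFunLike.coe_injective

theorem card_gph {k : ℕ} (Y : Sb k) (φ : Module.Dual (ZMod 2) Y) :
    Nat.card (gph Y φ) = Nat.card Y := by
  have h1 := LinearEquiv.ofInjective _ (inj_of_notMem (e0_notMem_gph Y φ))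
  have h2 : LinearMap.range ((prj k).domRestrict (gph Y φ)) = Y := by
    rw [LinearMap.range_domRestrict, map_gph]
  rw [Nat.card_congr h1.toEquiv, h2]

theorem card_dual {k : ℕ} (Y : Sb k) : Nat.card (Module.Dual (ZMod 2) Y) = Nat.card Y := by
  rw [Module.natCard_eq_pow_finrank (K := ZMod 2), Module.natCard_eq_pow_finrank (K := ZMod 2)
    (V := Y), Subspace.dual_finrank_eq]

theorem card_comap {k : ℕ} (Y : Sb k) : Nat.card (Y.comap (prj k)) = 2 * Nat.card Y := by
  have h : Y.comap (prj k) ≃ ZMod 2 × Y :=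
    { toFun := fun f => (f.1 0, ⟨prj k f.1, f.2⟩)
      invFun := fun p => ⟨Fin.cons p.1 p.2.1, by
        rw [Submodule.mem_comap, prj_cons]
        exact p.2.2⟩
      left_inv := fun f => Subtype.ext (eq_cons f.1).symm
      right_inv := fun p => Prod.ext rfl (Subtype.ext (prj_cons _ _)) }
  rw [Nat.card_congr h, Nat.card_prod, Nat.card_zmod]

theorem comap_of_mem {k : ℕ} {K : Sb (k + 1)} (h : e0 k ∈ K) :
    (K.map (prj k)).comap (prj k) = K := by
  ext f
  rw [Submodule.mem_comap, Submodule.mem_map]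
  constructor
  · rintro ⟨g, hg, h1⟩
    have h2 : prj k (f - g) = 0 := by rw [map_sub, h1, sub_self]
    rcases ker_prj h2 with h3 | h3
    · rw [sub_eq_zero.1 h3]
      exact hg
    · have h4 : f = e0 k + g := by rw [← h3, sub_add_cancel]
      rw [h4]
      exact K.add_mem h hg
  · intro hf
    exact ⟨f, hf, rfl⟩

theorem map_comap {k : ℕ} (Y : Sb k) : (Y.comap (prj k)).map (prj k) = Y := by
  ext v
  rw [Submodule.mem_map]
  constructor
  · rintro ⟨f, hf, rfl⟩
    exact hf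
  · intro h
    refine ⟨Fin.cons 0 v, ?_, prj_cons _ _⟩
    rw [Submodule.mem_comap, prj_cons]
    exact h

/-- **The number of the subspaces**, weighted. -/
theorem sum_card_Sb (m : ℕ) : ∀ j : ℕ, ∑ Y : Sb m, Nat.card Y ^ j = gN m j := by
  induction m with
  | zero =>
    intro j
    have : Subsingleton (Sb 0) := ⟨fun A B => by
      ext x
      have hx : x = 0 := Subsingleton.elim _ _
      rw [hx]
      exact ⟨fun _ => B.zero_mem, fun _ => A.zero_mem⟩⟩
    rw [Fintype.sum_subsingleton _ (⊥ : Sb 0), Nat.card_unique, one_pow, gN_zero]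
  | succ m ih =>
    intro j
    have : ∀ Y : Sb m, Fintype (Module.Dual (ZMod 2) Y) := fun Y => Fintype.ofFinite _
    have h1 : ∀ Y : Sb m, ∑ K ∈ univ.filter (fun K : Sb (m + 1) => K.map (prj m) = Y),
        Nat.card K ^ j = 2 ^ j * Nat.card Y ^ j + Nat.card Y ^ (j + 1) := by
      intro Y
      have h2 : univ.filter (fun K : Sb (m + 1) => K.map (prj m) = Y) =
          insert (Y.comap (prj m)) (univ.image (gph Y)) := by
        ext K
        rw [mem_filter, mem_insert, mem_image]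
        constructor
        · rintro ⟨_, rfl⟩
          by_cases h : e0 m ∈ K
          · exact Or.inl (comap_of_mem h).symm
          · obtain ⟨φ, hφ⟩ := exists_gph h
            exact Or.inr ⟨φ, mem_univ _, hφ⟩
        · rintro (rfl | ⟨φ, _, rfl⟩)
          · exact ⟨mem_univ _, map_comap Y⟩
          · exact ⟨mem_univ _, map_gph Y φ⟩
      have h3 : Y.comap (prj m) ∉ univ.image (gph Y) := by
        rw [mem_image]
        rintro ⟨φ, _, h4⟩
        refine e0_notMem_gph Y φ ?_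
        rw [h4, Submodule.mem_comap, prj_e0]
        exact Y.zero_mem
      rw [h2, sum_insert h3, card_comap, sum_image fun _ _ _ _ h => gph_inj Y h, mul_pow]
      simp only [card_gph]
      rw [sum_const, card_univ, ← Nat.card_eq_fintype_card, card_dual, smul_eq_mul, pow_succ]
      ring
    rw [← sum_fiberwise univ (fun K : Sb (m + 1) => K.map (prj m)) fun K => Nat.card K ^ j,
      sum_congr rfl fun Y _ => h1 Y, sum_add_distrib, ← mul_sum, ih, ih, gN_succ]
    ring

theorem card_Sb (m : ℕ) : Fintype.card (Sb m) = gN m 0 := by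
  rw [← sum_card_Sb m 0]
  simp

end

end Pool.Agent.Lib.MP_1a91b9_ntV.DS
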